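import Pool.Agent.H95.L1.Fams

/-!
# [H11 RG FAM] Small monomials as sums of residue classes (from helper95's lemma `L1.fam`)
-/

namespace Pool.Agent.H11.RG

open Finset Filter Pool.Agent.H92.MM

theorem fam {ι : Type} [Fintype ι] [DecidableEq ι] (a : ℝ) (L : ℕ) (ha : 0 < a) (h : ι → ℕ)
    (hinj : Function.Injective h) (η ε : ℝ) (hε : 0 < ε) :
    ∀ᶠ x : ℝ in atTop, ∀ A : ι → Fin L → ℕ, sl a L A ≤ η →
      ∃ (κ : Type) (Fam : Finset κ) (q r : κ → ℕ),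
        (∀ N : ℕ, 0 < N → sm x a L h A N =
          ∑ k ∈ Fam, if N % q k = r k % q k then (1 : ℝ) else 0) ∧
        (∀ k ∈ Fam, 0 < q k ∧ (q k : ℝ) ≤ x ^ η ∧
          ∀ p : ℕ, p.Prime → p ∣ q k → x ^ a ≤ (p : ℝ) ∧ (p : ℝ) < x ^ (a * 2 ^ L)) ∧
        (Fam.card : ℝ) ≤ x ^ η ∧ |∑ k ∈ Fam, (1 : ℝ) / q k - sv L A| ≤ ε := by
  filter_upwards [Pool.Agent.H95.L1.fam L a ha h hinj η ε hε, eventually_ge_atTop (1 : ℝ)] with
    x hx hx1 A hA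
  obtain ⟨κ, F, q, r, f1, f2, -, -, f5, f6⟩ := hx A hA
  have hle : x ^ sl a L A ≤ x ^ η := Real.rpow_le_rpow_of_exponent_le hx1 hA
  exact ⟨κ, F, q, r, fun N _ => f1 N, fun k hk => ⟨(f2 k hk).1, ((f2 k hk).2.2.2).trans hle,
    (f2 k hk).2.2.1⟩, f5.trans hle, f6⟩

end Pool.Agent.H11.RG
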