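import Pool.Agent.H11.RG.Int
import Pool.Agent.H95.FL.Cn

/-!
# [H11 RG EVT] Functions of divisor type, total level < 1 (Selberg squares, weights of stage 1)

`DivT a0 κ C c`: coefficients `c x m`, bounded by `C`, supported on `m ≤ x^(1/2-κ)` all of whose primes are `≥ x^a0`.
`dv c x n = ∑_{m ∣ n} c x m`, mean `dm c x = ∑_{m ≤ x} c x m / m`.

Proof of `evt_int` (`η ≤ κ`, `h ≠ h'` fixed).  Take `θ = a0/4`, `c = a0/2`.  For `N > 0` and `x ≥ 1`: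
`dv c x (N+h) = ∑_{m ∈ Icc 1 M} [m ∣ N+h] c x m`, `M = ⌊x^(1/2-κ)⌋₊` (`c x m = 0` for larger `m`; `m ≥ 1` is automatic for
divisors; `N + h` may be smaller than `M`, no problem).  Exchange sums:
`∑_{m, m'} c x m c' x m' #{N ∈ (X1, X2] : N ≡ r (q0), m ∣ N+h, m' ∣ N+h'}`.
If `gcd(m,m') = 1`, and both are coprime to `q0` (the primes of `q0` are `< x^a0`, those of `m, m'` are `≥ x^a0`), the
three conditions are one residue class modulo `q0 m m'` (CRT): the count is `(X2-X1)/(q0 m m') + O(1)`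
(`Pool.Agent.H95.FL.ud_Ioc`).  If `gcd(m,m') > 1` a prime `p ≥ x^a0 > |h - h'|` divides both, hence `h - h'` whenever
the count is not zero, so the count is `0` (`x` large).  Error terms `O(1)`: at most `C C' M^2 ≤ C C' x^(1-2κ)
≤ C C' x^(1-η/128)`.  Main term: `(X2-X1)/q0 ∑_{gcd = 1} c c'/(m m') = (X2-X1)/q0 (dm dm' - ∑_{gcd > 1} ..)`, and
`∑_{gcd > 1} |c c'|/(m m') ≤ C C' ∑_{d ≥ x^a0} (∑_{m ≤ x, d ∣ m} 1/m)^2 ≤ C C' ∑_{d ≥ x^a0} (1/d^2) (1 + log x)^2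
≤ 2 C C' x^(-a0) (1 + log x)^2` (`d` = a common prime; `∑_{d ≥ y} 1/d^2 ≤ 2/y`), times `X2/q0 ≤ x^(1+a0/4)/q0`: at most
`x^(1-a0/2)/q0` for `x` large.
`evt_one`: `evt_int` with `c' x m = [m = 1]` (`dv c' x n = 1` for `n > 0`, `dm c' x = 1` for `x ≥ 1`) and `h' = h + 1`;
the identity `dm c' x = 1` holds only for `x ≥ 1`: use it inside `filter_upwards`.
`dv_poly`: `|dv c x n| ≤ C n ≤ C x^2 ≤ x^3` for `0 < n ≤ x^2` and `x` large (a number `n > 0` has at most `n` divisors).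
-/

namespace Pool.Agent.H11.RG

open Finset Filter

/-- coefficients of divisor type -/
def DivT (a0 κ C : ℝ) (c : ℝ → ℕ → ℝ) : Prop :=
  ∀ᶠ x : ℝ in atTop, ∀ m : ℕ, |c x m| ≤ C ∧ (c x m ≠ 0 →
    (m : ℝ) ≤ x ^ (1 / 2 - κ) ∧ ∀ p : ℕ, p.Prime → p ∣ m → x ^ a0 ≤ (p : ℝ))

/-- the function of divisor type -/
noncomputable def dv (c : ℝ → ℕ → ℝ) (x : ℝ) (n : ℕ) : ℝ := ∑ m ∈ n.divisors, c x m

/-- its mean -/
noncomputable def dm (c : ℝ → ℕ → ℝ) (x : ℝ) : ℝ := ∑ m ∈ Icc 1 ⌊x⌋₊, c x m / m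

private theorem dvd_iff_mod (m h N : ℕ) (hm : 0 < m) :
    m ∣ N + h ↔ N % m = ((m - 1) * h) % m := by
  have h1 : (m - 1) * h + h = m * h := by
    obtain ⟨k, rfl⟩ : ∃ k, m = k + 1 := ⟨m - 1, by omega⟩
    rw [Nat.add_sub_cancel]
    ring
  constructor
  · intro hd
    have h2 : N + h ≡ (m - 1) * h + h [MOD m] := by
      rw [h1]
      exact (Nat.modEq_zero_iff_dvd.2 hd).trans (Nat.modEq_zero_iff_dvd.2 (dvd_mul_right m h)).symm
    exact Nat.ModEq.add_right_cancel' h h2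
  · intro hd
    have h2 : N ≡ (m - 1) * h [MOD m] := hd
    have h3 := h2.add_right h
    rw [h1] at h3
    exact Nat.modEq_zero_iff_dvd.1 (h3.trans (Nat.modEq_zero_iff_dvd.2 (dvd_mul_right m h)))

private theorem cnt2 (X1 X2 q0 r m m' h h' : ℕ) (hX : X1 ≤ X2) (hq : 0 < q0) (hm : 0 < m)
    (hm' : 0 < m') (h1 : Nat.Coprime q0 m) (h2 : Nat.Coprime q0 m') (h3 : Nat.Coprime m m') :
    |∑ N ∈ (Ioc X1 X2).filter (fun N => N % q0 = r % q0),
      (if m ∣ N + h ∧ m' ∣ N + h' then (1 : ℝ) else 0) -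
      ((X2 : ℝ) - X1) / q0 * (1 / (m : ℝ) * (1 / (m' : ℝ)))| ≤ 1 := by
  have h4 := Pool.Agent.H95.FL.cnt_one (Pool.Agent.H95.FL.ud_Ioc X1 X2 hX) q0 r m ((m - 1) * h) m'
    (((m' - 1) * h') % m') hq hm hm' h1 h2 h3 (Nat.mod_lt _ hm')
  have h5 : ∑ N ∈ (Ioc X1 X2).filter (fun N => N % q0 = r % q0),
      (if m ∣ N + h ∧ m' ∣ N + h' then (1 : ℝ) else 0) =
      ∑ N ∈ (Ioc X1 X2).filter (fun N => N % q0 = r % q0 ∧ N % m = ((m - 1) * h) % m ∧
        N % m' = ((m' - 1) * h') % m'), (1 : ℝ) := by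
    rw [← sum_filter, filter_filter]
    refine sum_congr (filter_congr fun N _ => ?_) fun _ _ => rfl
    rw [dvd_iff_mod m h N hm, dvd_iff_mod m' h' N hm']
  have h6 : ((X2 : ℝ) - X1) / q0 * (1 / (m : ℝ) * (1 / (m' : ℝ))) =
      ((X2 : ℝ) - X1) / (q0 * m * m') := by
    have e1 : (q0 : ℝ) ≠ 0 := by exact_mod_cast hq.ne'
    have e2 : (m : ℝ) ≠ 0 := by exact_mod_cast hm.ne'
    have e3 : (m' : ℝ) ≠ 0 := by exact_mod_cast hm'.ne'
    field_simp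
  rw [h5, h6]
  exact h4

private theorem harm (M : ℕ) : ∑ k ∈ Icc 1 M, 1 / (k : ℝ) ≤ 1 + Real.log M := by
  have h3 := harmonic_le_one_add_log M
  rw [harmonic_eq_sum_Icc] at h3
  push_cast at h3
  simpa [one_div] using h3

private theorem sum_mult (M g : ℕ) (hg : 0 < g) :
    ∑ m ∈ (Icc 1 M).filter (fun m => g ∣ m), 1 / (m : ℝ) ≤
      1 / (g : ℝ) * ∑ k ∈ Icc 1 M, 1 / (k : ℝ) := by
  have h1 : (Icc 1 M).filter (fun m => g ∣ m) ⊆ (Icc 1 M).image (fun k => g * k) := by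
    intro m hm
    rw [mem_filter, mem_Icc] at hm
    obtain ⟨⟨h2, h3⟩, k, rfl⟩ := hm
    rw [mem_image]
    refine ⟨k, mem_Icc.2 ⟨?_, ?_⟩, rfl⟩
    · rcases Nat.eq_zero_or_pos k with h0 | h0
      · rw [h0, mul_zero] at h2
        omega
      · exact h0
    · exact (Nat.le_mul_of_pos_left k hg).trans h3
  refine (sum_le_sum_of_subset_of_nonneg h1 fun _ _ _ => by positivity).trans ?_
  rw [sum_image (fun a _ b _ hab => Nat.eq_of_mul_eq_mul_left hg hab), mul_sum]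
  refine sum_le_sum fun k _ => ?_
  push_cast
  rw [one_div_mul_one_div]

private theorem gcd_bd (M : ℕ) (y L : ℝ) (hy : 0 < y) (hL : ∑ k ∈ Icc 1 M, 1 / (k : ℝ) ≤ L) :
    ∑ m ∈ Icc 1 M, ∑ m' ∈ Icc 1 M,
      (if y ≤ (Nat.gcd m m' : ℝ) then 1 / (m : ℝ) * (1 / (m' : ℝ)) else 0) ≤ 2 / y * L ^ 2 := by
  have hL0 : 0 ≤ L := (sum_nonneg fun k _ => by positivity).trans hL
  have h1 : ∀ m ∈ Icc 1 M, ∀ m' ∈ Icc 1 M,
      (if y ≤ (Nat.gcd m m' : ℝ) then 1 / (m : ℝ) * (1 / (m' : ℝ)) else 0) ≤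
      ∑ g ∈ (Icc 1 M).filter (fun g : ℕ => y ≤ (g : ℝ)),
        (if g ∣ m then 1 / (m : ℝ) else 0) * (if g ∣ m' then 1 / (m' : ℝ) else 0) := by
    intro m hm m' hm'
    have hnn : ∀ g : ℕ, 0 ≤ (if g ∣ m then 1 / (m : ℝ) else 0) *
        (if g ∣ m' then 1 / (m' : ℝ) else 0) := by
      intro g
      refine mul_nonneg ?_ ?_ <;> split_ifs <;> positivity
    by_cases hgy : y ≤ (Nat.gcd m m' : ℝ)
    · rw [if_pos hgy]
      have hg : Nat.gcd m m' ∈ (Icc 1 M).filter (fun g : ℕ => y ≤ (g : ℝ)) := by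
        rw [mem_filter, mem_Icc]
        rw [mem_Icc] at hm
        exact ⟨⟨Nat.gcd_pos_of_pos_left _ hm.1, (Nat.gcd_le_left _ hm.1).trans hm.2⟩, hgy⟩
      have h2 := single_le_sum (f := fun g : ℕ => (if g ∣ m then 1 / (m : ℝ) else 0) *
        (if g ∣ m' then 1 / (m' : ℝ) else 0)) (fun g _ => hnn g) hg
      simp only [Nat.gcd_dvd_left, Nat.gcd_dvd_right, if_true] at h2
      exact h2
    · rw [if_neg hgy]
      exact sum_nonneg fun g _ => hnn g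
  calc ∑ m ∈ Icc 1 M, ∑ m' ∈ Icc 1 M,
      (if y ≤ (Nat.gcd m m' : ℝ) then 1 / (m : ℝ) * (1 / (m' : ℝ)) else 0)
      ≤ ∑ m ∈ Icc 1 M, ∑ m' ∈ Icc 1 M, ∑ g ∈ (Icc 1 M).filter (fun g : ℕ => y ≤ (g : ℝ)),
        (if g ∣ m then 1 / (m : ℝ) else 0) * (if g ∣ m' then 1 / (m' : ℝ) else 0) :=
        sum_le_sum fun m hm => sum_le_sum fun m' hm' => h1 m hm m' hm'
    _ = ∑ g ∈ (Icc 1 M).filter (fun g : ℕ => y ≤ (g : ℝ)),
        (∑ m ∈ Icc 1 M, if g ∣ m then 1 / (m : ℝ) else 0) *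
        (∑ m' ∈ Icc 1 M, if g ∣ m' then 1 / (m' : ℝ) else 0) := by
        rw [sum_congr rfl (fun m _ => sum_comm), sum_comm]
        refine sum_congr rfl fun g _ => ?_
        rw [sum_mul_sum]
    _ ≤ ∑ g ∈ (Icc 1 M).filter (fun g : ℕ => y ≤ (g : ℝ)), ((g : ℝ) ^ 2)⁻¹ * L ^ 2 := by
        refine sum_le_sum fun g hg => ?_
        rw [mem_filter, mem_Icc] at hg
        have h2 := sum_mult M g hg.1.1
        rw [sum_filter] at h2
        have h3 : (∑ m ∈ Icc 1 M, if g ∣ m then 1 / (m : ℝ) else 0) ≤ 1 / (g : ℝ) * L :=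
          h2.trans (mul_le_mul_of_nonneg_left hL (by positivity))
        have h4 : 0 ≤ (∑ m ∈ Icc 1 M, if g ∣ m then 1 / (m : ℝ) else 0) :=
          sum_nonneg fun m _ => by split_ifs <;> positivity
        have h5 : ((g : ℝ) ^ 2)⁻¹ * L ^ 2 = (1 / (g : ℝ) * L) * (1 / (g : ℝ) * L) := by
          rw [inv_eq_one_div, ← one_div_pow]
          ring
        rw [h5]
        exact mul_le_mul h3 h3 h4 (by positivity)
    _ ≤ 2 / y * L ^ 2 := by
        rw [← sum_mul]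
        refine mul_le_mul_of_nonneg_right ?_ (by positivity)
        have h2 : (Icc 1 M).filter (fun g : ℕ => y ≤ (g : ℝ)) ⊆ Ioo (⌈y⌉₊ - 1) (M + 1) := by
          intro g hg
          rw [mem_filter, mem_Icc] at hg
          rw [mem_Ioo]
          have h3 : ⌈y⌉₊ ≤ g := Nat.ceil_le.2 hg.2
          omega
        refine (sum_le_sum_of_subset_of_nonneg h2 fun _ _ _ => by positivity).trans ?_
        refine (sum_Ioo_inv_sq_le (α := ℝ) (⌈y⌉₊ - 1) (M + 1)).trans ?_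
        have h4 : 0 < ⌈y⌉₊ := Nat.ceil_pos.2 hy
        have h5 : (((⌈y⌉₊ - 1 : ℕ) : ℝ) + 1) = ⌈y⌉₊ := by
          rw [Nat.cast_sub (by omega)]
          push_cast
          ring
        rw [h5]
        exact div_le_div_of_nonneg_left (by norm_num) hy (Nat.le_ceil y)

private theorem core (M : ℕ) (u v : ℕ → ℝ) (C C' y : ℝ) (hC : ∀ m, |u m| ≤ C)
    (hC' : ∀ m, |v m| ≤ C')
    (hu : ∀ m, u m ≠ 0 → ∀ p : ℕ, p.Prime → p ∣ m → y ≤ (p : ℝ))
    (hv : ∀ m, v m ≠ 0 → ∀ p : ℕ, p.Prime → p ∣ m → y ≤ (p : ℝ))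
    (X1 X2 q0 r h h' : ℕ) (hX : X1 ≤ X2) (hq : 0 < q0)
    (hqp : ∀ p : ℕ, p.Prime → p ∣ q0 → (p : ℝ) < y) (hh : h ≠ h')
    (hy : ((h + h' : ℕ) : ℝ) < y) (L : ℝ) (hL : ∑ k ∈ Icc 1 M, 1 / (k : ℝ) ≤ L) :
    |∑ N ∈ (Ioc X1 X2).filter (fun N => N % q0 = r % q0),
      (∑ m ∈ Icc 1 M, (if m ∣ N + h then u m else 0)) *
      (∑ m' ∈ Icc 1 M, (if m' ∣ N + h' then v m' else 0)) -
      ((X2 : ℝ) - X1) / q0 * ((∑ m ∈ Icc 1 M, u m * (1 / (m : ℝ))) *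
        (∑ m' ∈ Icc 1 M, v m' * (1 / (m' : ℝ))))| ≤
      C * C' * (M : ℝ) ^ 2 + (X2 : ℝ) / q0 * (C * C') * (2 / y * L ^ 2) := by
  have hC0 : 0 ≤ C := (abs_nonneg _).trans (hC 0)
  have hC0' : 0 ≤ C' := (abs_nonneg _).trans (hC' 0)
  have hy0 : 0 < y := lt_of_le_of_lt (by positivity) hy
  have hq0 : (0 : ℝ) < q0 := by exact_mod_cast hq
  have hXr : (X1 : ℝ) ≤ X2 := by exact_mod_cast hX
  have hX1 : (0 : ℝ) ≤ X1 := by positivity
  set S := (Ioc X1 X2).filter (fun N => N % q0 = r % q0) with hS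
  have e1 : ∑ N ∈ S, (∑ m ∈ Icc 1 M, (if m ∣ N + h then u m else 0)) *
      (∑ m' ∈ Icc 1 M, (if m' ∣ N + h' then v m' else 0)) =
      ∑ m ∈ Icc 1 M, ∑ m' ∈ Icc 1 M, u m * v m' *
        ∑ N ∈ S, (if m ∣ N + h ∧ m' ∣ N + h' then (1 : ℝ) else 0) := by
    have e2 : ∀ N ∈ S, (∑ m ∈ Icc 1 M, (if m ∣ N + h then u m else 0)) *
      (∑ m' ∈ Icc 1 M, (if m' ∣ N + h' then v m' else 0)) =
      ∑ m ∈ Icc 1 M, ∑ m' ∈ Icc 1 M, u m * v m' *
        (if m ∣ N + h ∧ m' ∣ N + h' then (1 : ℝ) else 0) := by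
      intro N _
      rw [sum_mul_sum]
      refine sum_congr rfl fun m _ => sum_congr rfl fun m' _ => ?_
      by_cases ha : m ∣ N + h <;> by_cases hb : m' ∣ N + h' <;> simp [ha, hb]
    rw [sum_congr rfl e2, sum_comm]
    refine sum_congr rfl fun m _ => ?_
    rw [sum_comm]
    refine sum_congr rfl fun m' _ => ?_
    rw [mul_sum]
  have e3 : ((X2 : ℝ) - X1) / q0 * ((∑ m ∈ Icc 1 M, u m * (1 / (m : ℝ))) *
        (∑ m' ∈ Icc 1 M, v m' * (1 / (m' : ℝ)))) =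
      ∑ m ∈ Icc 1 M, ∑ m' ∈ Icc 1 M, u m * v m' *
        (((X2 : ℝ) - X1) / q0 * (1 / (m : ℝ) * (1 / (m' : ℝ)))) := by
    rw [sum_mul_sum, mul_sum]
    refine sum_congr rfl fun m _ => ?_
    rw [mul_sum]
    refine sum_congr rfl fun m' _ => ?_
    ring
  rw [e1, e3, ← sum_sub_distrib]
  have e4 : ∑ m ∈ Icc 1 M, (∑ m' ∈ Icc 1 M, u m * v m' *
        ∑ N ∈ S, (if m ∣ N + h ∧ m' ∣ N + h' then (1 : ℝ) else 0) -
        ∑ m' ∈ Icc 1 M, u m * v m' * (((X2 : ℝ) - X1) / q0 * (1 / (m : ℝ) * (1 / (m' : ℝ))))) =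
      ∑ m ∈ Icc 1 M, ∑ m' ∈ Icc 1 M, u m * v m' *
        (∑ N ∈ S, (if m ∣ N + h ∧ m' ∣ N + h' then (1 : ℝ) else 0) -
        ((X2 : ℝ) - X1) / q0 * (1 / (m : ℝ) * (1 / (m' : ℝ)))) := by
    refine sum_congr rfl fun m _ => ?_
    rw [← sum_sub_distrib]
    refine sum_congr rfl fun m' _ => ?_
    ring
  rw [e4]
  have key : ∀ m ∈ Icc 1 M, ∀ m' ∈ Icc 1 M, |u m * v m' *
        (∑ N ∈ S, (if m ∣ N + h ∧ m' ∣ N + h' then (1 : ℝ) else 0) -
        ((X2 : ℝ) - X1) / q0 * (1 / (m : ℝ) * (1 / (m' : ℝ))))| ≤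
      C * C' + (X2 : ℝ) / q0 * (C * C') *
        (if y ≤ (Nat.gcd m m' : ℝ) then 1 / (m : ℝ) * (1 / (m' : ℝ)) else 0) := by
    intro m hm m' hm'
    rw [mem_Icc] at hm hm'
    have hm0 : 0 < m := hm.1
    have hm0' : 0 < m' := hm'.1
    have hnn : 0 ≤ (if y ≤ (Nat.gcd m m' : ℝ) then 1 / (m : ℝ) * (1 / (m' : ℝ)) else 0) := by
      split_ifs <;> positivity
    have hnn2 : 0 ≤ (X2 : ℝ) / q0 * (C * C') *
        (if y ≤ (Nat.gcd m m' : ℝ) then 1 / (m : ℝ) * (1 / (m' : ℝ)) else 0) := by positivity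
    have hCC : 0 ≤ C * C' := by positivity
    have huv : |u m * v m'| ≤ C * C' := by
      rw [abs_mul]
      exact mul_le_mul (hC m) (hC' m') (abs_nonneg _) hC0
    by_cases hu0 : u m = 0
    · rw [hu0, zero_mul, zero_mul, abs_zero]
      linarith
    by_cases hv0 : v m' = 0
    · rw [hv0, mul_zero, zero_mul, abs_zero]
      linarith
    have g1 : Nat.Coprime q0 m := by
      by_contra hc
      obtain ⟨p, hp, hp1, hp2⟩ := Nat.Prime.not_coprime_iff_dvd.1 hc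
      exact absurd (hqp p hp hp1) (not_lt.2 (hu m hu0 p hp hp2))
    have g2 : Nat.Coprime q0 m' := by
      by_contra hc
      obtain ⟨p, hp, hp1, hp2⟩ := Nat.Prime.not_coprime_iff_dvd.1 hc
      exact absurd (hqp p hp hp1) (not_lt.2 (hv m' hv0 p hp hp2))
    by_cases hco : Nat.Coprime m m'
    · rw [abs_mul]
      have h4 := cnt2 X1 X2 q0 r m m' h h' hX hq hm0 hm0' g1 g2 hco
      rw [← hS] at h4
      have h5 := mul_le_mul huv h4 (abs_nonneg _) hCC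
      linarith
    · obtain ⟨p, hp, hp1, hp2⟩ := Nat.Prime.not_coprime_iff_dvd.1 hco
      have hyp : y ≤ (p : ℝ) := hu m hu0 p hp hp1
      have hpg : (p : ℝ) ≤ (Nat.gcd m m' : ℝ) := by
        exact_mod_cast Nat.le_of_dvd (Nat.gcd_pos_of_pos_left _ hm0) (Nat.dvd_gcd hp1 hp2)
      have hz : ∑ N ∈ S, (if m ∣ N + h ∧ m' ∣ N + h' then (1 : ℝ) else 0) = 0 := by
        refine sum_eq_zero fun N _ => ?_
        rw [if_neg]
        rintro ⟨ha, hb⟩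
        have ha' : p ∣ N + h := hp1.trans ha
        have hb' : p ∣ N + h' := hp2.trans hb
        have hlt : h + h' < p := by
          exact_mod_cast hy.trans_le hyp
        rcases lt_or_gt_of_ne hh with hl | hl
        · have h6 : p ∣ h' - h := by
            have h7 := (Nat.dvd_sub hb' ha')
            have h8 : N + h' - (N + h) = h' - h := by omega
            rwa [h8] at h7
          have h9 := Nat.le_of_dvd (by omega) h6
          omega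
        · have h6 : p ∣ h - h' := by
            have h7 := (Nat.dvd_sub ha' hb')
            have h8 : N + h - (N + h') = h - h' := by omega
            rwa [h8] at h7
          have h9 := Nat.le_of_dvd (by omega) h6
          omega
      rw [if_pos (hyp.trans hpg), hz, zero_sub, mul_neg, abs_neg, abs_mul]
      have h10 : |((X2 : ℝ) - X1) / q0 * (1 / (m : ℝ) * (1 / (m' : ℝ)))| ≤
          (X2 : ℝ) / q0 * (1 / (m : ℝ) * (1 / (m' : ℝ))) := by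
        rw [abs_of_nonneg]
        · refine mul_le_mul_of_nonneg_right ?_ (by positivity)
          exact div_le_div_of_nonneg_right (by linarith) hq0.le
        · refine mul_nonneg (div_nonneg (by linarith) hq0.le) (by positivity)
      have h11 := mul_le_mul huv h10 (abs_nonneg _) hCC
      have h12 : C * C' * ((X2 : ℝ) / q0 * (1 / (m : ℝ) * (1 / (m' : ℝ)))) =
        (X2 : ℝ) / q0 * (C * C') * (1 / (m : ℝ) * (1 / (m' : ℝ))) := by ring
      linarith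
  refine (abs_sum_le_sum_abs _ _).trans ?_
  calc ∑ m ∈ Icc 1 M, |∑ m' ∈ Icc 1 M, u m * v m' *
        (∑ N ∈ S, (if m ∣ N + h ∧ m' ∣ N + h' then (1 : ℝ) else 0) -
        ((X2 : ℝ) - X1) / q0 * (1 / (m : ℝ) * (1 / (m' : ℝ))))|
      ≤ ∑ m ∈ Icc 1 M, ∑ m' ∈ Icc 1 M, (C * C' + (X2 : ℝ) / q0 * (C * C') *
        (if y ≤ (Nat.gcd m m' : ℝ) then 1 / (m : ℝ) * (1 / (m' : ℝ)) else 0)) := by
        refine sum_le_sum fun m hm => (abs_sum_le_sum_abs _ _).trans ?_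
        exact sum_le_sum fun m' hm' => key m hm m' hm'
    _ = C * C' * (M : ℝ) ^ 2 + (X2 : ℝ) / q0 * (C * C') * ∑ m ∈ Icc 1 M, ∑ m' ∈ Icc 1 M,
        (if y ≤ (Nat.gcd m m' : ℝ) then 1 / (m : ℝ) * (1 / (m' : ℝ)) else 0) := by
        simp only [sum_add_distrib, sum_const, Nat.card_Icc, nsmul_eq_mul, mul_sum]
        rw [Nat.add_sub_cancel]
        ring
    _ ≤ _ := by
        refine add_le_add le_rfl ?_
        refine mul_le_mul_of_nonneg_left (gcd_bd M y L hy0 hL) ?_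
        positivity

private theorem dv_eq (κ C a0 x : ℝ) (c : ℝ → ℕ → ℝ) (hx : ∀ m : ℕ, |c x m| ≤ C ∧ (c x m ≠ 0 →
    (m : ℝ) ≤ x ^ (1 / 2 - κ) ∧ ∀ p : ℕ, p.Prime → p ∣ m → x ^ a0 ≤ (p : ℝ))) (n : ℕ)
    (hn : 0 < n) :
    dv c x n = ∑ m ∈ Icc 1 ⌊x ^ (1 / 2 - κ)⌋₊, (if m ∣ n then c x m else 0) := by
  unfold dv
  rw [← sum_filter]
  symm
  apply sum_subset
  · intro m hm
    rw [mem_filter] at hm
    exact Nat.mem_divisors.2 ⟨hm.2, hn.ne'⟩
  · intro m hm hm'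
    rw [Nat.mem_divisors] at hm
    by_contra h0
    apply hm'
    rw [mem_filter, mem_Icc]
    exact ⟨⟨Nat.pos_of_dvd_of_pos hm.1 hn, Nat.le_floor ((hx m).2 h0).1⟩, hm.1⟩

private theorem dm_eq (κ C a0 x : ℝ) (hx1 : 1 ≤ x) (hκ0 : 0 ≤ κ) (c : ℝ → ℕ → ℝ)
    (hx : ∀ m : ℕ, |c x m| ≤ C ∧ (c x m ≠ 0 →
    (m : ℝ) ≤ x ^ (1 / 2 - κ) ∧ ∀ p : ℕ, p.Prime → p ∣ m → x ^ a0 ≤ (p : ℝ))) :
    dm c x = ∑ m ∈ Icc 1 ⌊x ^ (1 / 2 - κ)⌋₊, c x m * (1 / (m : ℝ)) := by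
  unfold dm
  have h1 : ∑ m ∈ Icc 1 ⌊x⌋₊, c x m / m = ∑ m ∈ Icc 1 ⌊x⌋₊, c x m * (1 / (m : ℝ)) :=
    sum_congr rfl fun m _ => by rw [mul_one_div]
  rw [h1]
  symm
  apply sum_subset
  · intro m hm
    rw [mem_Icc] at hm ⊢
    refine ⟨hm.1, hm.2.trans (Nat.floor_le_floor ?_)⟩
    calc x ^ (1 / 2 - κ) ≤ x ^ (1 : ℝ) := Real.rpow_le_rpow_of_exponent_le hx1 (by linarith)
      _ = x := Real.rpow_one x
  · intro m hm hm'
    rw [mem_Icc] at hm hm'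
    by_cases h0 : c x m = 0
    · rw [h0, zero_mul]
    · exact absurd ⟨hm.1, Nat.le_floor ((hx m).2 h0).1⟩ hm'

theorem evt_int (η a0 κ C C' : ℝ) (hη : 0 < η) (hκ : η ≤ κ) (hκ1 : κ ≤ 1 / 2) (ha0 : 0 < a0)
    (ha1 : a0 ≤ 1 / 2) (c c' : ℝ → ℕ → ℝ) (hc : DivT a0 κ C c) (hc' : DivT a0 κ C' c')
    (h h' : ℕ) (hne : h ≠ h') :
    IntD η a0 (fun x N => dv c x (N + h) * dv c' x (N + h')) (fun x => dm c x * dm c' x) := by
  have hlog : ∀ᶠ x : ℝ in atTop, (1 + Real.log x) ^ 2 ≤ x ^ (a0 / 4) := by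
    have h1 : Tendsto (fun x : ℝ => x ^ (a0 / 8)) atTop atTop := tendsto_rpow_atTop (by positivity)
    have h2 := isLittleO_log_rpow_atTop (show 0 < a0 / 8 by positivity)
    have h3 := h2.bound (show (0 : ℝ) < 1 / 2 by norm_num)
    filter_upwards [h3, h1.eventually_ge_atTop 2, eventually_ge_atTop (1 : ℝ)] with x h3 h4 h5
    have h6 : 0 ≤ Real.log x := Real.log_nonneg h5
    rw [Real.norm_of_nonneg h6, Real.norm_of_nonneg (by positivity)] at h3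
    have h7 : x ^ (a0 / 4) = (x ^ (a0 / 8)) ^ 2 := by
      rw [← Real.rpow_natCast (x ^ (a0 / 8)) 2, ← Real.rpow_mul (by linarith)]
      congr 1
      push_cast
      ring
    rw [h7]
    exact pow_le_pow_left₀ (by linarith) (by linarith) 2
  have hlim : Tendsto (fun x : ℝ => x ^ a0) atTop atTop := tendsto_rpow_atTop ha0
  refine ⟨a0 / 2, a0 / 4, 2 * (|C| * |C'|) + 1, by positivity, by positivity, by positivity, ?_⟩
  filter_upwards [hc, hc', hlog, hlim.eventually_gt_atTop ((h + h' : ℕ) : ℝ),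
    eventually_ge_atTop (1 : ℝ)] with x k1 k2 k3 k4 k5 X1 X2 q0 r h4 h5 h6 h7 h8
  have hx0 : 0 < x := by linarith
  have hq : (0 : ℝ) < q0 := by exact_mod_cast h6
  have hC0 : 0 ≤ C := (abs_nonneg _).trans (k1 0).1
  have hC0' : 0 ≤ C' := (abs_nonneg _).trans (k2 0).1
  rw [abs_of_nonneg hC0, abs_of_nonneg hC0']
  obtain ⟨M, hM⟩ : ∃ M : ℕ, M = ⌊x ^ (1 / 2 - κ)⌋₊ := ⟨_, rfl⟩
  have hMr : (M : ℝ) ≤ x ^ (1 / 2 - κ) := by
    rw [hM]
    exact Nat.floor_le (by positivity)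
  have hL : ∑ k ∈ Icc 1 M, 1 / (k : ℝ) ≤ 1 + Real.log x := by
    refine (harm M).trans ?_
    rcases Nat.eq_zero_or_pos M with h0 | h0
    · rw [h0, Nat.cast_zero, Real.log_zero]
      have := Real.log_nonneg k5
      linarith
    · have h9 : (M : ℝ) ≤ x := by
        refine hMr.trans ?_
        calc x ^ (1 / 2 - κ) ≤ x ^ (1 : ℝ) := Real.rpow_le_rpow_of_exponent_le k5 (by linarith)
          _ = x := Real.rpow_one x
      have h10 := Real.log_le_log (by exact_mod_cast h0) h9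
      linarith
  have hcore := core M (c x) (c' x) C C' (x ^ a0) (fun m => (k1 m).1) (fun m => (k2 m).1)
    (fun m hm => ((k1 m).2 hm).2) (fun m hm => ((k2 m).2 hm).2) X1 X2 q0 r h h' h4 h6 h8 hne k4
    (1 + Real.log x) hL
  have e1 : ∑ N ∈ (Ioc X1 X2).filter (fun N => N % q0 = r % q0),
      dv c x (N + h) * dv c' x (N + h') =
      ∑ N ∈ (Ioc X1 X2).filter (fun N => N % q0 = r % q0),
      (∑ m ∈ Icc 1 M, (if m ∣ N + h then c x m else 0)) *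
      (∑ m' ∈ Icc 1 M, (if m' ∣ N + h' then c' x m' else 0)) := by
    refine sum_congr rfl fun N hN => ?_
    rw [mem_filter, mem_Ioc] at hN
    rw [dv_eq κ C a0 x c k1 (N + h) (by omega), dv_eq κ C' a0 x c' k2 (N + h') (by omega), ← hM]
  rw [e1, dm_eq κ C a0 x k5 (by linarith) c k1, dm_eq κ C' a0 x k5 (by linarith) c' k2, ← hM]
  refine hcore.trans ?_
  have b1 : (M : ℝ) ^ 2 ≤ x ^ (1 - η / 128) := by
    calc (M : ℝ) ^ 2 ≤ (x ^ (1 / 2 - κ)) ^ 2 := pow_le_pow_left₀ (by positivity) hMr 2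
      _ = x ^ ((1 / 2 - κ) * 2) := by
        rw [← Real.rpow_natCast (x ^ (1 / 2 - κ)) 2, ← Real.rpow_mul hx0.le]
        norm_num
      _ ≤ x ^ (1 - η / 128) := Real.rpow_le_rpow_of_exponent_le k5 (by linarith)
  have b2 : (X2 : ℝ) / q0 * (C * C') * (2 / x ^ a0 * (1 + Real.log x) ^ 2) ≤
      2 * (C * C') * (x ^ (1 - a0 / 2) / q0) := by
    have b3 : (X2 : ℝ) / q0 * (C * C') * (2 / x ^ a0 * (1 + Real.log x) ^ 2) ≤
        x ^ (1 + a0 / 4) / q0 * (C * C') * (2 / x ^ a0 * x ^ (a0 / 4)) := by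
      refine mul_le_mul ?_ ?_ (by positivity) (by positivity)
      · refine mul_le_mul_of_nonneg_right ?_ (by positivity)
        exact div_le_div_of_nonneg_right h5 hq.le
      · exact mul_le_mul_of_nonneg_left k3 (by positivity)
    refine b3.trans (le_of_eq ?_)
    have b4 : x ^ (1 - a0 / 2) = x ^ (1 + a0 / 4) * x ^ (a0 / 4) / x ^ a0 := by
      rw [← Real.rpow_add hx0, ← Real.rpow_sub hx0]
      congr 1
      ring
    rw [b4]
    ring
  have b5 : C * C' * (M : ℝ) ^ 2 ≤ C * C' * x ^ (1 - η / 128) :=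
    mul_le_mul_of_nonneg_left b1 (by positivity)
  have b6 : 0 ≤ x ^ (1 - a0 / 2) / q0 := by positivity
  have b7 : 0 ≤ x ^ (1 - η / 128) := by positivity
  have b8 : 0 ≤ C * C' := by positivity
  nlinarith [mul_nonneg b8 b7, mul_nonneg b8 b6]

theorem evt_one (η a0 κ C : ℝ) (hη : 0 < η) (hκ : η ≤ κ) (hκ1 : κ ≤ 1 / 2) (ha0 : 0 < a0)
    (ha1 : a0 ≤ 1 / 2) (c : ℝ → ℕ → ℝ) (hc : DivT a0 κ C c) (h : ℕ) :
    IntD η a0 (fun x N => dv c x (N + h)) (dm c) := by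
  have hc' : DivT a0 κ 1 (fun _ m => if m = 1 then 1 else 0) := by
    filter_upwards [eventually_ge_atTop (1 : ℝ)] with x hx m
    by_cases hm : m = 1
    · simp only [hm, if_true]
      refine ⟨by norm_num, fun _ => ⟨?_, ?_⟩⟩
      · push_cast
        exact Real.one_le_rpow hx (by linarith)
      · intro p hp hp1
        exact absurd (Nat.dvd_one.1 hp1) hp.one_lt.ne'
    · simp only [if_neg hm]
      exact ⟨by norm_num, fun h0 => absurd rfl h0⟩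
  obtain ⟨c1, θ1, C1, g1, g2, g3, g4⟩ := evt_int η a0 κ C 1 hη hκ hκ1 ha0 ha1 c _ hc hc' h (h + 1)
    (by omega)
  refine ⟨c1, θ1, C1, g1, g2, g3, ?_⟩
  filter_upwards [g4, eventually_ge_atTop (1 : ℝ)] with x g4 hx X1 X2 q0 r h4 h5 h6 h7 h8
  have g5 := g4 X1 X2 q0 r h4 h5 h6 h7 h8
  have e1 : dm (fun _ m => if m = 1 then 1 else 0) x = 1 := by
    unfold dm
    rw [sum_eq_single 1]
    · simp
    · intro b _ hb
      simp only [if_neg hb, zero_div]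
    · intro h1
      exact absurd (mem_Icc.2 ⟨le_rfl, Nat.le_floor (by exact_mod_cast hx)⟩) h1
  have e2 : ∀ n : ℕ, 0 < n → dv (fun _ m => if m = 1 then 1 else 0) x n = 1 := by
    intro n hn
    unfold dv
    rw [sum_eq_single 1]
    · simp
    · intro b _ hb
      simp only [if_neg hb]
    · intro h1
      exact absurd (Nat.mem_divisors.2 ⟨one_dvd _, hn.ne'⟩) h1
  rw [e1, mul_one] at g5
  rw [sum_congr rfl (fun N hN => by
    rw [e2 (N + (h + 1)) (by omega), mul_one])] at g5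
  exact g5

theorem dv_poly (a0 κ C : ℝ) (c : ℝ → ℕ → ℝ) (hc : DivT a0 κ C c) : ∀ᶠ x : ℝ in atTop,
    ∀ n : ℕ, 0 < n → (n : ℝ) ≤ x ^ 2 → |dv c x n| ≤ x ^ 3 := by
  filter_upwards [hc, eventually_ge_atTop C, eventually_ge_atTop (1 : ℝ)] with x h1 h2 h3 n hn hn2
  unfold dv
  have hC0 : 0 ≤ C := (abs_nonneg _).trans (h1 0).1
  calc |∑ m ∈ n.divisors, c x m| ≤ ∑ m ∈ n.divisors, |c x m| := abs_sum_le_sum_abs _ _
    _ ≤ ∑ m ∈ n.divisors, C := sum_le_sum fun m _ => (h1 m).1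
    _ = (n.divisors.card : ℝ) * C := by rw [sum_const, nsmul_eq_mul]
    _ ≤ x ^ 2 * x := by
      refine mul_le_mul ?_ h2 hC0 (by positivity)
      refine le_trans ?_ hn2
      exact_mod_cast Nat.card_divisors_le_self n
    _ = x ^ 3 := by ring

end Pool.Agent.H11.RG
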