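import Pool.Agent.H11.PT.Defs
import Pool.Agent.H89.P2.Ab
import Pool.Agent.H75.AP.MertensB
import Pool.Agent.H43.TP.Mert

/-!
# [H11 RG CST] The masses of the cells converge

* `ms_tendsto`: `ms x δ j = ∑_{x^(jδ) ≤ p < x^((j+1)δ)} 1/p → log((j+1)/j)`: from Mertens (helper63: `rg_tendsto`, or from
  `H75.AP.mertens_one` by partial summation: for `u = x^(jδ)`, `v = x^((j+1)δ)`, `A(t) = ∑_{p ≤ t} log p/p = log t + E(t)`,
  `|E| ≤ C`: `∑_{u<p≤v} 1/p = ∫ dA/log = log(log v/log u) + O(C/log u)`).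
* `mv2_tendsto`: finite sums of finite products.
* `mva2_bd`: `mv2 (ab W) (ms x δ) = mva2 W (ms x δ) → mva2 W mu`, so it is eventually `≤ mva2 W mu + 1`.
-/

namespace Pool.Agent.H11.RG

open Finset Filter Topology Pool.Agent.H89.P2 Pool.Agent.H11.PT

private theorem one_pt (S : Finset ℕ) (y : ℝ) (hy : 0 < y) (hS : ∀ p ∈ S, (p : ℝ) = y) :
    ∑ p ∈ S, (1 / (p : ℝ)) ≤ 1 / y := by
  have h1 : ∑ p ∈ S, (1 / (p : ℝ)) = S.card * (1 / y) := by
    rw [Finset.sum_congr rfl (fun p hp => by rw [hS p hp]), Finset.sum_const, nsmul_eq_mul]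
  have h2 : S.card ≤ 1 := by
    rw [Finset.card_le_one]
    intro a ha b hb
    exact_mod_cast (hS a ha).trans (hS b hb).symm
  have h3 : (S.card : ℝ) ≤ 1 := by exact_mod_cast h2
  rw [h1]
  have h4 : 0 < 1 / y := by positivity
  nlinarith

private theorem mem_cell {x δ : ℝ} {j p : ℕ} : p ∈ cell x δ j ↔
    p.Prime ∧ x ^ ((j : ℝ) * δ) ≤ p ∧ (p : ℝ) < x ^ (((j : ℝ) + 1) * δ) := by
  rw [cell, Finset.mem_filter, Finset.mem_range, Nat.lt_ceil]
  tauto

theorem ms_tendsto (δ : ℝ) (hδ : 0 < δ) (j : ℕ) (hj : 0 < j) :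
    Tendsto (fun x => ms x δ j) atTop (𝓝 (mu j)) := by
  have hj0 : (0 : ℝ) < j := by exact_mod_cast hj
  obtain ⟨R, hR⟩ : ∃ R : ℝ, R = ((j : ℝ) + 1) / j := ⟨_, rfl⟩
  have hR1 : 1 < R := by
    rw [hR, lt_div_iff₀ hj0]
    linarith
  have hmu : mu j = Real.log R := by rw [mu, hR]
  rw [hmu, Metric.tendsto_nhds]
  intro ε hε
  obtain ⟨u1, hu1, h1⟩ := Pool.Agent.H75.AP.mertens_ratio R (ε / 4) hR1 (by linarith)
  obtain ⟨u2, hu2, h2⟩ := Pool.Agent.H43.TP.mert_ratio_low R (ε / 4) hR1 (by linarith)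
  have hlim : Tendsto (fun x : ℝ => x ^ ((j : ℝ) * δ)) atTop atTop :=
    tendsto_rpow_atTop (by positivity)
  filter_upwards [hlim.eventually_ge_atTop u1, hlim.eventually_ge_atTop u2,
    hlim.eventually_ge_atTop (4 / ε), eventually_ge_atTop (1 : ℝ)] with x k1 k2 k3 k4
  obtain ⟨u, hu⟩ : ∃ u : ℝ, u = x ^ ((j : ℝ) * δ) := ⟨_, rfl⟩
  obtain ⟨v, hv⟩ : ∃ v : ℝ, v = x ^ (((j : ℝ) + 1) * δ) := ⟨_, rfl⟩
  have hvu : v = u ^ R := by
    rw [hv, hu, ← Real.rpow_mul (by linarith), hR]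
    congr 1
    field_simp
  rw [← hu] at k1 k2 k3
  have hu0 : 0 < u := by linarith
  have huv : u ≤ v := by
    rw [hvu]
    calc u = u ^ (1 : ℝ) := (Real.rpow_one u).symm
      _ ≤ u ^ R := Real.rpow_le_rpow_of_exponent_le (by linarith) hR1.le
  have hinv : 1 / u ≤ ε / 4 := by
    rw [div_le_div_iff₀ hu0 (by norm_num)]
    rw [div_le_iff₀ hε] at k3
    linarith
  have hinv' : 1 / v ≤ ε / 4 := (one_div_le_one_div_of_le hu0 huv).trans hinv
  have m1 := h1 u v k1 hvu.le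
  have m2 := h2 u v k2 hvu.ge
  have hup : ms x δ j ≤ ∑ p ∈ Pool.Agent.H75.AP.PI u v, 1 / (p : ℝ) + 1 / u := by
    unfold ms
    rw [← Finset.sum_filter_add_sum_filter_not (cell x δ j) (fun p => u < (p : ℝ))]
    refine add_le_add ?_ (one_pt _ u hu0 ?_)
    · refine Finset.sum_le_sum_of_subset_of_nonneg ?_ fun p _ _ => by positivity
      intro p hp
      rw [Finset.mem_filter, mem_cell, ← hu, ← hv] at hp
      rw [Pool.Agent.H75.AP.MertB.mem_PI hu0.le]
      exact ⟨hp.1.1, hp.2, hp.1.2.2.le⟩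
    · intro p hp
      rw [Finset.mem_filter, mem_cell, ← hu, ← hv] at hp
      exact le_antisymm (not_lt.1 hp.2) hp.1.2.1
  have hlo : ∑ p ∈ Pool.Agent.H75.AP.PI u v, 1 / (p : ℝ) ≤ ms x δ j + 1 / v := by
    unfold ms
    rw [← Finset.sum_filter_add_sum_filter_not (Pool.Agent.H75.AP.PI u v) (fun p => (p : ℝ) < v)]
    refine add_le_add ?_ (one_pt _ v (by linarith) ?_)
    · refine Finset.sum_le_sum_of_subset_of_nonneg ?_ fun p _ _ => by positivity
      intro p hp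
      rw [Finset.mem_filter, Pool.Agent.H75.AP.MertB.mem_PI hu0.le] at hp
      rw [mem_cell, ← hu, ← hv]
      exact ⟨hp.1.1, hp.1.2.1.le, hp.2⟩
    · intro p hp
      rw [Finset.mem_filter, Pool.Agent.H75.AP.MertB.mem_PI hu0.le] at hp
      exact le_antisymm hp.1.2.2 (not_lt.1 hp.2)
  rw [Real.dist_eq, abs_lt]
  constructor <;> linarith

private theorem prod_tendsto (δ : ℝ) (hδ : 0 < δ) (P : List ℕ) (hP : ∀ j ∈ P, 0 < j) :
    Tendsto (fun x => (P.map (ms x δ)).prod) atTop (𝓝 ((P.map mu).prod)) := by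
  induction P with
  | nil => simp
  | cons j P ih =>
    simp only [List.map_cons, List.prod_cons]
    exact (ms_tendsto δ hδ j (hP j List.mem_cons_self)).mul
      (ih fun i hi => hP i (List.mem_cons_of_mem _ hi))

theorem mv2_tendsto (δ : ℝ) (hδ : 0 < δ) (W : List (ℝ × List ℕ × List ℕ))
    (hW : ∀ w ∈ W, ∀ j ∈ w.2.1 ++ w.2.2, 0 < j) :
    Tendsto (fun x => mv2 W (ms x δ)) atTop (𝓝 (mv2 W mu)) := by
  unfold mv2
  induction W with
  | nil => simp
  | cons w W ih =>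
    simp only [List.map_cons, List.sum_cons]
    exact ((prod_tendsto δ hδ _ (hW w List.mem_cons_self)).const_mul w.1).add
      (ih fun v hv => hW v (List.mem_cons_of_mem _ hv))

theorem mva2_tendsto (δ : ℝ) (hδ : 0 < δ) (W : List (ℝ × List ℕ × List ℕ))
    (hW : ∀ w ∈ W, ∀ j ∈ w.2.1 ++ w.2.2, 0 < j) :
    Tendsto (fun x => mva2 W (ms x δ)) atTop (𝓝 (mva2 W mu)) := by
  unfold mva2
  induction W with
  | nil => simp
  | cons w W ih =>
    simp only [List.map_cons, List.sum_cons]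
    exact ((prod_tendsto δ hδ _ (hW w List.mem_cons_self)).const_mul |w.1|).add
      (ih fun v hv => hW v (List.mem_cons_of_mem _ hv))

end Pool.Agent.H11.RG
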