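import Pool.Agent.H11.RG.Evt
import Pool.Agent.H75.AP.MertensB

/-!
# [H11 RG DMB] The absolute mean of a function of divisor type is bounded

Proof.  Let `S` be the set of the primes `p ≤ x` with `p ≥ x^a0` (`x ≥ 1`).  The numbers `m` with `c x m ≠ 0` are
squarefree with all primes in `S` (`m ≤ x^(1/2-κ) ≤ x`, `κ ≥ 0`), so `m = ∏_{p ∈ A} p` with `A = m.primeFactors ⊆ S`, and
`m ↦ m.primeFactors` is injective on squarefree numbers (`Nat.prod_primeFactors_of_squarefree`).  Hence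
`∑ |c x m|/m ≤ C ∑_{A ⊆ S} ∏_{p ∈ A} 1/p = C ∏_{p ∈ S} (1 + 1/p) ≤ C exp(∑_{p ∈ S} 1/p)` (`Finset.prod_one_add`,
`Real.add_one_le_exp`), and `∑_{p ∈ S} 1/p ≤ 1 + log(1/a0) + 1` by `mertens_ratio` with `R = 1/a0` (for `a0 < 1`), `ε = 1`,
`u = x^a0`, `v = x = u^(1/a0)` (`S ⊆ insert ⌊u⌋₊ (PI u v)`, as in `ms_le` of `H11/PT/Mai.lean`).
-/

namespace Pool.Agent.H11.RG

open Finset Filter

private theorem dmb_sum (a0 : ℝ) (ha0 : 0 < a0) (ha1 : a0 ≤ 1 / 2) :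
    ∃ B : ℝ, ∀ᶠ x : ℝ in atTop,
      ∑ p ∈ (range (⌊x⌋₊ + 1)).filter (fun p : ℕ => p.Prime ∧ x ^ a0 ≤ (p : ℝ)), (1 / (p : ℝ)) ≤ B := by
  have hR : 1 < 1 / a0 := by
    rw [lt_div_iff₀ ha0]
    linarith
  obtain ⟨u0, hu0, h⟩ := Pool.Agent.H75.AP.mertens_ratio (1 / a0) 1 hR one_pos
  refine ⟨1 + (Real.log (1 / a0) + 1), ?_⟩
  have e1 : ∀ᶠ x : ℝ in atTop, u0 ≤ x ^ a0 := (tendsto_rpow_atTop ha0).eventually_ge_atTop _
  filter_upwards [e1, eventually_ge_atTop (1 : ℝ)] with x huu hx1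
  have hx0 : 0 < x := by linarith
  set u : ℝ := x ^ a0 with hu
  have hu1 : 1 < u := lt_of_lt_of_le hu0 huu
  have hv : x = u ^ (1 / a0) := by
    rw [hu, ← Real.rpow_mul hx0.le, mul_one_div_cancel ha0.ne', Real.rpow_one]
  have h1 := h u x huu hv.le
  have hsub : (range (⌊x⌋₊ + 1)).filter (fun p : ℕ => p.Prime ∧ u ≤ (p : ℝ)) ⊆
      insert ⌊u⌋₊ (Pool.Agent.H75.AP.PI u x) := by
    intro p hp
    rw [Finset.mem_filter, Finset.mem_range] at hp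
    obtain ⟨hp1, hp2, hp3⟩ := hp
    rcases eq_or_lt_of_le hp3 with he | hl
    · refine Finset.mem_insert.2 (Or.inl ?_)
      rw [he, Nat.floor_natCast]
    · refine Finset.mem_insert.2 (Or.inr ?_)
      unfold Pool.Agent.H75.AP.PI
      rw [Finset.mem_filter, Finset.mem_range]
      exact ⟨hp1, hp2, hl⟩
  calc ∑ p ∈ (range (⌊x⌋₊ + 1)).filter (fun p : ℕ => p.Prime ∧ u ≤ (p : ℝ)), (1 / (p : ℝ))
      ≤ ∑ p ∈ insert ⌊u⌋₊ (Pool.Agent.H75.AP.PI u x), (1 / (p : ℝ)) :=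
        Finset.sum_le_sum_of_subset_of_nonneg hsub fun p _ _ => by positivity
    _ ≤ 1 / ((⌊u⌋₊ : ℕ) : ℝ) + ∑ p ∈ Pool.Agent.H75.AP.PI u x, (1 / (p : ℝ)) := by
        classical
        by_cases hmem : ⌊u⌋₊ ∈ Pool.Agent.H75.AP.PI u x
        · rw [Finset.insert_eq_of_mem hmem]
          have : (0 : ℝ) ≤ 1 / ((⌊u⌋₊ : ℕ) : ℝ) := by positivity
          linarith
        · rw [Finset.sum_insert hmem]
    _ ≤ 1 + (Real.log (1 / a0) + 1) := by
        have h2 : (1 : ℝ) ≤ ((⌊u⌋₊ : ℕ) : ℝ) := by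
          exact_mod_cast (Nat.one_le_floor_iff u).2 hu1.le
        have h3 : 1 / ((⌊u⌋₊ : ℕ) : ℝ) ≤ 1 := by
          rw [div_le_one (by linarith)]
          exact h2
        linarith

theorem dmb (a0 κ C : ℝ) (ha0 : 0 < a0) (ha1 : a0 ≤ 1 / 2) (hκ : 0 ≤ κ) (c : ℝ → ℕ → ℝ)
    (hc : DivT a0 κ C c) (hsq : ∀ᶠ x : ℝ in atTop, ∀ m : ℕ, c x m ≠ 0 → Squarefree m) :
    ∃ C' : ℝ, 1 ≤ C' ∧ ∀ᶠ x : ℝ in atTop, ∑ m ∈ Icc 1 ⌊x⌋₊, |c x m| / m ≤ C' := by
  classical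
  obtain ⟨B, hB⟩ := dmb_sum a0 ha0 ha1
  refine ⟨max 1 (|C| * Real.exp B), le_max_left _ _, ?_⟩
  filter_upwards [hc, hsq, hB, eventually_ge_atTop (1 : ℝ)] with x hc hsq hB hx1
  refine le_trans ?_ (le_max_right _ _)
  have hx0 : 0 < x := by linarith
  set S := (range (⌊x⌋₊ + 1)).filter (fun p : ℕ => p.Prime ∧ x ^ a0 ≤ (p : ℝ)) with hS
  set F := (Icc 1 ⌊x⌋₊).filter (fun m => c x m ≠ 0) with hF
  have h1 : ∑ m ∈ Icc 1 ⌊x⌋₊, |c x m| / m = ∑ m ∈ F, |c x m| / m := by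
    rw [hF]
    symm
    apply Finset.sum_filter_of_ne
    intro m _ hm h0
    apply hm
    rw [h0]
    simp
  have h2 : ∀ m ∈ F, |c x m| / m ≤ |C| * ∏ p ∈ m.primeFactors, (1 / (p : ℝ)) := by
    intro m hm
    rw [hF, mem_filter, mem_Icc] at hm
    have hsqm := hsq m hm.2
    have h3 : ∏ p ∈ m.primeFactors, (1 / (p : ℝ)) = 1 / m := by
      rw [Finset.prod_div_distrib, Finset.prod_const_one]
      congr 1
      have h4 := Nat.prod_primeFactors_of_squarefree hsqm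
      rw [← Nat.cast_prod]
      exact congrArg _ h4
    rw [h3, mul_one_div]
    exact div_le_div_of_nonneg_right (((hc m).1).trans (le_abs_self C)) (Nat.cast_nonneg m)
  have hinj : ∀ m ∈ F, ∀ m' ∈ F, m.primeFactors = m'.primeFactors → m = m' := by
    intro m hm m' hm' he
    rw [hF, mem_filter, mem_Icc] at hm hm'
    have e1 := Nat.prod_primeFactors_of_squarefree (hsq m hm.2)
    have e2 := Nat.prod_primeFactors_of_squarefree (hsq m' hm'.2)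
    rw [← e1, ← e2, he]
  have h3 : ∑ m ∈ F, ∏ p ∈ m.primeFactors, (1 / (p : ℝ)) =
      ∑ A ∈ F.image Nat.primeFactors, ∏ p ∈ A, (1 / (p : ℝ)) := by
    rw [Finset.sum_image]
    intro m hm m' hm' he
    exact hinj m hm m' hm' he
  have h4 : F.image Nat.primeFactors ⊆ S.powerset := by
    intro A hA
    obtain ⟨m, hm, rfl⟩ := Finset.mem_image.1 hA
    rw [hF, mem_filter, mem_Icc] at hm
    rw [mem_powerset]
    intro p hp
    have hp2 := Nat.mem_primeFactors.1 hp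
    have h5 := ((hc m).2 hm.2).2 p hp2.1 hp2.2.1
    have h6 := Nat.le_of_dvd (by omega) hp2.2.1
    rw [hS, mem_filter, mem_range]
    exact ⟨by omega, hp2.1, h5⟩
  have h5 : ∑ A ∈ S.powerset, ∏ p ∈ A, (1 / (p : ℝ)) ≤ Real.exp B := by
    rw [← Finset.prod_one_add]
    calc ∏ p ∈ S, (1 + 1 / (p : ℝ)) ≤ ∏ p ∈ S, Real.exp (1 / (p : ℝ)) := by
          apply Finset.prod_le_prod
          · intro p _
            positivity
          · intro p _
            have := Real.add_one_le_exp (1 / (p : ℝ))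
            linarith
      _ = Real.exp (∑ p ∈ S, 1 / (p : ℝ)) := (Real.exp_sum _ _).symm
      _ ≤ Real.exp B := Real.exp_le_exp.2 hB
  rw [h1]
  calc ∑ m ∈ F, |c x m| / m ≤ ∑ m ∈ F, |C| * ∏ p ∈ m.primeFactors, (1 / (p : ℝ)) :=
        Finset.sum_le_sum h2
    _ = |C| * ∑ A ∈ F.image Nat.primeFactors, ∏ p ∈ A, (1 / (p : ℝ)) := by
        rw [← Finset.mul_sum, h3]
    _ ≤ |C| * ∑ A ∈ S.powerset, ∏ p ∈ A, (1 / (p : ℝ)) := by
        apply mul_le_mul_of_nonneg_left _ (abs_nonneg C)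
        apply Finset.sum_le_sum_of_subset_of_nonneg h4
        intro A _ _
        exact Finset.prod_nonneg fun p _ => by positivity
    _ ≤ |C| * Real.exp B := mul_le_mul_of_nonneg_left h5 (abs_nonneg C)

end Pool.Agent.H11.RG
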