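import Pool.Agent.H11.RG.Int
import Pool.Agent.H11.PT.PairB
import Pool.Agent.H89.P2.Ab

/-!
# [H11 RG PAT] Distribution of the values of a weight given by patterns

Proofs.
* `pat_int`: `pat_pair_b` with `η = 1/2000` (`N ≡ r [MOD q0]` is by definition `N % q0 = r % q0`); for fixed `h, h'` one
  has `(h : ℝ), (h' : ℝ) ≤ x^c` for large `x`; constant `C = 1`.
* `ev2_int`: `ev2 V k * ev2 W k'` is the sum over the pairs `v ∈ V`, `w ∈ W` of `v.1 * w.1 *` the product of the two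
  monomials: `intd_list` twice (first for fixed `v` over `W`, then over `V`) and `intd_congr`.
* `ev2_one`: `ev2_int` with `W = [(1, [], [])]` (`ev2 [(1, [], [])] k = 1`, `mv2 [(1, [], [])] μ = 1`, size `0`) and
  `h' = h + 1`.
* `ev2_abs`: `|ev2 W k| ≤ ev2 (ab W) k` since `mono ≥ 0`; `mv2 (ab W) μ = mva2 W μ`.
* `ev2_poly`: `mono P k ≤ ∏ k_j^(count) ≤ n^(length)`-type bound: `kk x δ n j ≤ n` for `n > 0` (a set of divisors of
  `n`), so `mono P (kk x δ n) ≤ n^(P.length)`; for `0 < n ≤ x^2`, `x ≥ 1` this is `≤ x^(2 length)`; sum over the list with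
  the coefficients: `≤ C x^M ≤ x^(M+1)` for large `x`, `M = 2 * (maximal length)`.
-/

namespace Pool.Agent.H11.RG

open Finset Filter Pool.Agent.H89.P2 Pool.Agent.H11.PT

/-- the conditions on a weight: all boxes start above `x^a0`, level `x^(1/2-1/2000)` and `x^(1/20-1/2000)` -/
def Okw (δ a0 : ℝ) (W : List (ℝ × List ℕ × List ℕ)) : Prop :=
  (∀ w ∈ W, ∀ j ∈ w.2.1 ++ w.2.2, a0 ≤ (j : ℝ) * δ) ∧
  ∀ w ∈ W, (size w.2.1 : ℝ) * δ ≤ 1 / 2 - 1 / 2000 ∧ (size w.2.2 : ℝ) * δ ≤ 1 / 20 - 1 / 2000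

/-- absolute values of the coefficients -/
noncomputable def ab (W : List (ℝ × List ℕ × List ℕ)) : List (ℝ × List ℕ × List ℕ) :=
  W.map fun w => (|w.1|, w.2)

theorem okw_ab (δ a0 : ℝ) (W : List (ℝ × List ℕ × List ℕ)) (h : Okw δ a0 W) :
    Okw δ a0 (ab W) := by
  constructor
  · intro w hw
    obtain ⟨v, hv, rfl⟩ := List.mem_map.1 hw
    exact h.1 v hv
  · intro w hw
    obtain ⟨v, hv, rfl⟩ := List.mem_map.1 hw
    exact h.2 v hv

private theorem pat_mono_nonneg (P : List ℕ) (k : ℕ → ℕ) : 0 ≤ mono P k := by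
  unfold mono
  exact prod_nonneg fun j _ => Nat.cast_nonneg _

theorem ev2_abs (W : List (ℝ × List ℕ × List ℕ)) (k : ℕ → ℕ) : |ev2 W k| ≤ ev2 (ab W) k := by
  induction W with
  | nil => simp [ev2, ab]
  | cons w W ih =>
    have e1 : ev2 (w :: W) k = w.1 * mono (w.2.1 ++ w.2.2) k + ev2 W k := by
      simp [ev2]
    have e2 : ev2 (ab (w :: W)) k = |w.1| * mono (w.2.1 ++ w.2.2) k + ev2 (ab W) k := by
      simp [ev2, ab]
    rw [e1, e2]
    refine (abs_add_le _ _).trans (add_le_add ?_ ih)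
    rw [abs_mul, abs_of_nonneg (pat_mono_nonneg _ _)]

theorem mv2_ab (W : List (ℝ × List ℕ × List ℕ)) (μ : ℕ → ℝ) (hμ : ∀ j, 0 ≤ μ j) :
    |mv2 W μ| ≤ mv2 (ab W) μ := by
  have hp : ∀ P : List ℕ, 0 ≤ (P.map μ).prod := by
    intro P
    apply List.prod_nonneg
    intro a ha
    obtain ⟨j, _, rfl⟩ := List.mem_map.1 ha
    exact hμ j
  induction W with
  | nil => simp [mv2, ab]
  | cons w W ih =>
    have e1 : mv2 (w :: W) μ = w.1 * ((w.2.1 ++ w.2.2).map μ).prod + mv2 W μ := by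
      simp [mv2]
    have e2 : mv2 (ab (w :: W)) μ = |w.1| * ((w.2.1 ++ w.2.2).map μ).prod + mv2 (ab W) μ := by
      simp [mv2, ab]
    rw [e1, e2]
    refine (abs_add_le _ _).trans (add_le_add ?_ ih)
    rw [abs_mul, abs_of_nonneg (hp _)]

private theorem pat_kk_le (x δ : ℝ) (n : ℕ) (hn : 0 < n) (j : ℕ) : kk x δ n j ≤ n := by
  unfold kk
  have h1 : (cell x δ j).filter (· ∣ n) ⊆ Icc 1 n := by
    intro p hp
    rw [mem_filter] at hp
    rw [mem_Icc]
    exact ⟨Nat.pos_of_dvd_of_pos hp.2 hn, Nat.le_of_dvd hn hp.2⟩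
  have h2 := card_le_card h1
  rw [Nat.card_Icc] at h2
  omega

private theorem pat_mono_le (P : List ℕ) (k : ℕ → ℕ) (n : ℕ) (hk : ∀ j, k j ≤ n) :
    mono P k ≤ (n : ℝ) ^ P.length := by
  unfold mono
  have h1 : ∏ j ∈ P.toFinset, ((k j).descFactorial (P.count j) : ℝ) ≤
      ∏ j ∈ P.toFinset, (n : ℝ) ^ (P.count j) := by
    apply Finset.prod_le_prod
    · intro j _
      exact Nat.cast_nonneg _
    · intro j _
      have h2 : (k j).descFactorial (P.count j) ≤ n ^ (P.count j) :=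
        (Nat.descFactorial_le_pow _ _).trans (Nat.pow_le_pow_left (hk j) _)
      exact_mod_cast h2
  refine h1.trans (le_of_eq ?_)
  rw [prod_pow_eq_pow_sum]
  congr 1
  exact List.sum_toFinset_count_eq_length P

theorem ev2_poly (δ : ℝ) (W : List (ℝ × List ℕ × List ℕ)) : ∃ m : ℕ, ∀ᶠ x : ℝ in atTop,
    ∀ n : ℕ, 0 < n → (n : ℝ) ≤ x ^ 2 → |ev2 W (kk x δ n)| ≤ x ^ m := by
  induction W with
  | nil =>
    refine ⟨0, Eventually.of_forall fun x n _ _ => ?_⟩
    simp [ev2]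
  | cons w W ih =>
    obtain ⟨m, hm⟩ := ih
    set l : ℕ := (w.2.1 ++ w.2.2).length with hl
    refine ⟨2 * l + m + 1, ?_⟩
    filter_upwards [hm, eventually_ge_atTop (|w.1| + 1)] with x hx hx1 n hn hnx
    have hw0 := abs_nonneg w.1
    have hx1' : (1 : ℝ) ≤ x := by linarith
    have e1 : ev2 (w :: W) (kk x δ n) = w.1 * mono (w.2.1 ++ w.2.2) (kk x δ n) +
        ev2 W (kk x δ n) := by
      simp [ev2]
    have h1 : mono (w.2.1 ++ w.2.2) (kk x δ n) ≤ x ^ (2 * l) := by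
      refine (pat_mono_le _ _ n (pat_kk_le x δ n hn)).trans ?_
      rw [← hl, pow_mul]
      exact pow_le_pow_left₀ (Nat.cast_nonneg n) hnx l
    have h2 := hx n hn hnx
    rw [e1]
    refine (abs_add_le _ _).trans ?_
    rw [abs_mul, abs_of_nonneg (pat_mono_nonneg _ _)]
    have h3 : x ^ (2 * l) ≤ x ^ (2 * l + m) := pow_le_pow_right₀ hx1' (by omega)
    have h4 : x ^ m ≤ x ^ (2 * l + m) := pow_le_pow_right₀ hx1' (by omega)
    have h5 : 0 < x ^ (2 * l + m) := by positivity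
    calc |w.1| * mono (w.2.1 ++ w.2.2) (kk x δ n) + |ev2 W (kk x δ n)|
        ≤ |w.1| * x ^ (2 * l + m) + x ^ (2 * l + m) :=
          add_le_add (mul_le_mul_of_nonneg_left (h1.trans h3) hw0) (h2.trans h4)
      _ = (|w.1| + 1) * x ^ (2 * l + m) := by ring
      _ ≤ x * x ^ (2 * l + m) := mul_le_mul_of_nonneg_right hx1 h5.le
      _ = x ^ (2 * l + m + 1) := by ring

theorem pat_int (δ a0 : ℝ) (hδ : 0 < δ) (ha0 : 0 < a0) (ha1 : a0 ≤ 1 / 2)
    (v w : ℝ × List ℕ × List ℕ) (hv : Okw δ a0 [v]) (hw : Okw δ a0 [w]) (h h' : ℕ)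
    (hne : h ≠ h') :
    IntD (1 / 2000) a0
      (fun x N => mono (v.2.1 ++ v.2.2) (kk x δ (N + h)) * mono (w.2.1 ++ w.2.2) (kk x δ (N + h')))
      (fun x => ((v.2.1 ++ v.2.2).map (ms x δ)).prod * ((w.2.1 ++ w.2.2).map (ms x δ)).prod) := by
  have hv1 := hv.1 v (List.mem_singleton_self v)
  have hv2 := hv.2 v (List.mem_singleton_self v)
  have hw1 := hw.1 w (List.mem_singleton_self w)
  have hw2 := hw.2 w (List.mem_singleton_self w)
  obtain ⟨c, θ, x0, hc, hθ, H⟩ := pat_pair_b δ (1 / 2000) a0 hδ (by norm_num) (by norm_num) ha0 ha1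
    v.2.1 v.2.2 w.2.1 w.2.2
    (fun j hj => hv1 j (List.mem_append_left _ hj)) (fun j hj => hv1 j (List.mem_append_right _ hj))
    (fun j hj => hw1 j (List.mem_append_left _ hj)) (fun j hj => hw1 j (List.mem_append_right _ hj))
    hv2.1 hv2.2 hw2.1 hw2.2
  refine ⟨c, θ, 1, hc, hθ, one_pos, ?_⟩
  have e1 : ∀ᶠ x : ℝ in atTop, (h : ℝ) ≤ x ^ c := (tendsto_rpow_atTop hc).eventually_ge_atTop _
  have e2 : ∀ᶠ x : ℝ in atTop, (h' : ℝ) ≤ x ^ c := (tendsto_rpow_atTop hc).eventually_ge_atTop _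
  filter_upwards [e1, e2, eventually_ge_atTop x0] with x h1 h2 h3 X1 X2 q0 r h4 h5 h6 h7 h8
  have h9 := H x h3 X1 X2 q0 h h' r h4 h5 h6 h7 h8 h1 h2 hne
  rw [one_mul]
  exact h9

theorem ev2_int (δ a0 : ℝ) (hδ : 0 < δ) (ha0 : 0 < a0) (ha1 : a0 ≤ 1 / 2)
    (V W : List (ℝ × List ℕ × List ℕ)) (hV : Okw δ a0 V) (hW : Okw δ a0 W) (h h' : ℕ)
    (hne : h ≠ h') :
    IntD (1 / 2000) a0 (fun x N => ev2 V (kk x δ (N + h)) * ev2 W (kk x δ (N + h')))
      (fun x => mv2 V (ms x δ) * mv2 W (ms x δ)) := by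
  have hsub : ∀ (U : List (ℝ × List ℕ × List ℕ)), Okw δ a0 U → ∀ v ∈ U, Okw δ a0 [v] := by
    intro U hU v hv
    constructor
    · intro w hw
      rw [List.mem_singleton] at hw
      subst hw
      exact hU.1 w hv
    · intro w hw
      rw [List.mem_singleton] at hw
      subst hw
      exact hU.2 w hv
  have h1 := intd_list V (fun v => v.1)
    (fun v x N => (W.map fun w => w.1 * (mono (v.2.1 ++ v.2.2) (kk x δ (N + h)) *
      mono (w.2.1 ++ w.2.2) (kk x δ (N + h')))).sum)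
    (fun v x => (W.map fun w => w.1 * (((v.2.1 ++ v.2.2).map (ms x δ)).prod *
      ((w.2.1 ++ w.2.2).map (ms x δ)).prod)).sum)
    (fun v hv => intd_list W (fun w => w.1)
      (fun w x N => mono (v.2.1 ++ v.2.2) (kk x δ (N + h)) *
        mono (w.2.1 ++ w.2.2) (kk x δ (N + h')))
      (fun w x => ((v.2.1 ++ v.2.2).map (ms x δ)).prod * ((w.2.1 ++ w.2.2).map (ms x δ)).prod)
      (fun w hw => pat_int δ a0 hδ ha0 ha1 v w (hsub V hV v hv) (hsub W hW w hw) h h' hne))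
  have key : ∀ (f g : ℝ × List ℕ × List ℕ → ℝ),
      (V.map fun v => v.1 * (W.map fun w => w.1 * (f v * g w)).sum).sum =
      (V.map fun v => v.1 * f v).sum * (W.map fun w => w.1 * g w).sum := by
    intro f g
    rw [← List.sum_map_mul_right]
    congr 1
    apply List.map_congr_left
    intro v _
    have h2 : (W.map fun w => w.1 * (f v * g w)).sum = f v * (W.map fun w => w.1 * g w).sum := by
      rw [← List.sum_map_mul_left]
      congr 1
      apply List.map_congr_left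
      intro w _
      ring
    rw [h2, mul_assoc]
  refine intd_congr h1 ?_ ?_
  · intro x N _
    exact key _ _
  · intro x
    exact key _ _

theorem ev2_one (δ a0 : ℝ) (hδ : 0 < δ) (ha0 : 0 < a0) (ha1 : a0 ≤ 1 / 2)
    (V : List (ℝ × List ℕ × List ℕ)) (hV : Okw δ a0 V) (h : ℕ) :
    IntD (1 / 2000) a0 (fun x N => ev2 V (kk x δ (N + h))) (fun x => mv2 V (ms x δ)) := by
  have hW : Okw δ a0 [((1 : ℝ), ([] : List ℕ), ([] : List ℕ))] := by
    constructor
    · intro w hw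
      rw [List.mem_singleton] at hw
      subst hw
      intro j hj
      simp at hj
    · intro w hw
      rw [List.mem_singleton] at hw
      subst hw
      simp only [size, List.map_nil, List.sum_nil]
      norm_num
  refine intd_congr (ev2_int δ a0 hδ ha0 ha1 V _ hV hW h (h + 1) (by omega)) ?_ ?_
  · intro x N _
    simp [ev2, mono]
  · intro x
    simp [mv2]

end Pool.Agent.H11.RG
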