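import Pool.Agent.H11.RG.Law
import Pool.Agent.H11.RG.Pat
import Pool.Agent.H11.RG.Cst
import Pool.Agent.H11.RG.Dmb

/-!
# [H11 RG FIN] The pair laws: `P_2` weights and functions of divisor type
-/

namespace Pool.Agent.H11.RG

open Finset Filter Topology Pool.Agent.H21.MT Pool.Agent.H92.MM Pool.Agent.H89.P2
  Pool.Agent.H11.PT

theorem tx_sq (h : ℕ) : ∀ᶠ x : ℝ in atTop, ∀ N ∈ Tx x, 0 < N + h ∧ ((N + h : ℕ) : ℝ) ≤ x ^ 2 := by
  have e1 : ∀ᶠ x : ℝ in atTop, (h : ℝ) ≤ x ^ (1 / 2 : ℝ) :=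
    (tendsto_rpow_atTop (by norm_num)).eventually_ge_atTop _
  have e2 : ∀ᶠ x : ℝ in atTop, (2 : ℝ) ≤ x ^ (1 / 2 : ℝ) :=
    (tendsto_rpow_atTop (by norm_num)).eventually_ge_atTop _
  filter_upwards [e1, e2, eventually_ge_atTop (1 : ℝ)] with x e1 e2 hx N hN
  have hx0 : 0 < x := by linarith
  unfold Tx at hN
  rw [mem_Ioc] at hN
  have h1 : (N : ℝ) ≤ x ^ (1 + 1 / 2000 : ℝ) :=
    (Nat.le_floor_iff (by positivity)).1 hN.2
  refine ⟨by omega, ?_⟩
  push_cast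
  have h2 : x ^ (1 + 1 / 2000 : ℝ) ≤ x ^ (3 / 2 : ℝ) :=
    Real.rpow_le_rpow_of_exponent_le hx (by norm_num)
  have h3 : x ^ (1 / 2 : ℝ) ≤ x ^ (3 / 2 : ℝ) :=
    Real.rpow_le_rpow_of_exponent_le hx (by norm_num)
  have h4 : x ^ 2 = x ^ (3 / 2 : ℝ) * x ^ (1 / 2 : ℝ) := by
    rw [← Real.rpow_add hx0, ← Real.rpow_natCast]
    norm_num
  have h5 : 0 < x ^ (3 / 2 : ℝ) := by positivity
  rw [h4]
  nlinarith

theorem pair_law_of (η Θ C0 a0 : ℝ) (hη : 0 < η) (hη1 : η ≤ 1 / 2000) (hΘ : 0 < Θ)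
    (hC0 : 1 ≤ C0) (ha0 : 0 < a0) (ha1 : a0 ≤ 1 / 20)
    (F F' : ℝ → ℕ → ℝ) (EF EF' : ℝ → ℝ)
    (h1 : ∀ x n, |F x n| ≤ F' x n)
    (h2 : ∀ᶠ x : ℝ in atTop, |EF x| ≤ EF' x ∧ EF' x ≤ C0)
    (hs : ∀ h, IntD η a0 (fun x N => F x (N + h)) EF)
    (hs' : ∀ h, IntD η a0 (fun x N => F' x (N + h)) EF')
    (hp : ∀ h h', h ≠ h' → IntD η a0 (fun x N => F x (N + h) * F x (N + h'))
      (fun x => EF x ^ 2))
    (hp' : ∀ h h', h ≠ h' → IntD η a0 (fun x N => F' x (N + h) * F' x (N + h'))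
      (fun x => EF' x ^ 2))
    (hm : ∃ m : ℕ, ∀ᶠ x : ℝ in atTop, ∀ n : ℕ, 0 < n → (n : ℝ) ≤ x ^ 2 → F' x n ≤ x ^ m) :
    PairLaw (η / 1000) Θ a0 F EF := by
  obtain ⟨m, hm⟩ := hm
  obtain ⟨c0, hc0, happ⟩ := app_all η Θ (C0 ^ 2) a0 hη hη1 hΘ (one_le_pow₀ hC0) ha0 ha1
  refine ⟨c0, hc0, ?_⟩
  intro ι _ _ _ a L ha haL hKa h hinj
  by_cases haa : a * 2 ^ L = a0
  swap
  · exact ⟨0, fun w _ b _ => Filter.Eventually.of_forall fun x h3 => absurd h3 haa⟩
  obtain ⟨w0, hw0⟩ := happ ι a L ha haa hKa h hinj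
  refine ⟨w0, fun w hw b hb => ?_⟩
  have happ := hw0 w hw b hb
  have hC02 : C0 ≤ C0 ^ 2 := by nlinarith
  have hF0 : ∀ x n, 0 ≤ F' x n := fun x n => (abs_nonneg _).trans (h1 x n)
  have A1 : ∀ j : ι, ∀ᶠ x : ℝ in atTop, App x a L h (primorial w) b (η / 1000)
      (Real.exp (-(Θ / a))) (fun N => F x (N + h j)) (EF x) := by
    intro j
    apply happ (fun x N => F x (N + h j)) (fun x N => F' x (N + h j)) EF EF' (hs _) (hs' _)
    · exact Filter.Eventually.of_forall fun x N _ => h1 x _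
    · filter_upwards [h2] with x h2
      exact ⟨h2.1, h2.2.trans hC02⟩
    · refine ⟨m, ?_⟩
      filter_upwards [hm, tx_sq (h j)] with x hm h3 N hN
      exact hm _ (h3 N hN).1 (h3 N hN).2
  have A2 : ∀ j j' : ι, ∀ᶠ x : ℝ in atTop, j ≠ j' → App x a L h (primorial w) b (η / 1000)
      (Real.exp (-(Θ / a))) (fun N => F x (N + h j) * F x (N + h j')) (EF x ^ 2) := by
    intro j j'
    by_cases hjj : j = j'
    · exact Filter.Eventually.of_forall fun x h3 => absurd hjj h3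
    have hne : h j ≠ h j' := fun h3 => hjj (hinj h3)
    have h4 : ∀ᶠ x : ℝ in atTop, App x a L h (primorial w) b (η / 1000)
        (Real.exp (-(Θ / a))) (fun N => F x (N + h j) * F x (N + h j')) (EF x ^ 2) := by
      apply happ (fun x N => F x (N + h j) * F x (N + h j'))
        (fun x N => F' x (N + h j) * F' x (N + h j')) (fun x => EF x ^ 2) (fun x => EF' x ^ 2)
        (hp _ _ hne) (hp' _ _ hne)
      · refine Filter.Eventually.of_forall fun x N _ => ?_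
        rw [abs_mul]
        exact mul_le_mul (h1 x _) (h1 x _) (abs_nonneg _) (hF0 x _)
      · filter_upwards [h2] with x h2
        have h5 := (abs_nonneg _).trans h2.1
        constructor
        · rw [abs_pow]
          exact pow_le_pow_left₀ (abs_nonneg _) h2.1 2
        · exact pow_le_pow_left₀ h5 h2.2 2
      · refine ⟨m + m, ?_⟩
        filter_upwards [hm, tx_sq (h j), tx_sq (h j')] with x hm h3 h4 N hN
        rw [pow_add]
        exact mul_le_mul (hm _ (h3 N hN).1 (h3 N hN).2) (hm _ (h4 N hN).1 (h4 N hN).2) (hF0 x _)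
          ((hF0 x _).trans (hm _ (h3 N hN).1 (h3 N hN).2))
    filter_upwards [h4] with x h4 _
    exact h4
  have B1 := Filter.eventually_all.2 A1
  have B2 := Filter.eventually_all.2 fun j => Filter.eventually_all.2 (A2 j)
  filter_upwards [B1, B2] with x B1 B2 _
  exact ⟨B1, B2⟩

theorem pair_law_const (η Θ a0 : ℝ) (F : ℝ → ℕ → ℝ) (EF : ℝ → ℝ) (E0 : ℝ)
    (h : PairLaw η (Θ + 1) a0 F EF) (hE : Tendsto EF atTop (𝓝 E0)) :
    PairLaw η Θ a0 F (fun _ => E0) := by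
  obtain ⟨c0, hc0, h⟩ := h
  refine ⟨c0, hc0, ?_⟩
  intro ι _ _ _ a L ha haL hKa hh hinj
  obtain ⟨w0, hw0⟩ := h ι a L ha haL hKa hh hinj
  refine ⟨w0, fun w hw b hb => ?_⟩
  have h3 := hw0 w hw b hb
  have hgap : 0 < Real.exp (-(Θ / a)) - Real.exp (-((Θ + 1) / a)) := by
    have h4 : -((Θ + 1) / a) < -(Θ / a) := by
      have h5 : Θ / a < (Θ + 1) / a := div_lt_div_of_pos_right (by linarith) ha
      linarith
    have := Real.exp_lt_exp.2 h4
    linarith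
  have hE2 : Tendsto (fun x => EF x ^ 2) atTop (𝓝 (E0 ^ 2)) := hE.pow 2
  have e1 : ∀ᶠ x in atTop, |EF x - E0| ≤ Real.exp (-(Θ / a)) - Real.exp (-((Θ + 1) / a)) := by
    have h5 := (Metric.tendsto_nhds.1 hE) _ hgap
    filter_upwards [h5] with x h5
    rw [Real.dist_eq] at h5
    exact h5.le
  have e2 : ∀ᶠ x in atTop, |EF x ^ 2 - E0 ^ 2| ≤
      Real.exp (-(Θ / a)) - Real.exp (-((Θ + 1) / a)) := by
    have h5 := (Metric.tendsto_nhds.1 hE2) _ hgap
    filter_upwards [h5] with x h5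
    rw [Real.dist_eq] at h5
    exact h5.le
  have conv : ∀ (x : ℝ) (Φ : ℕ → ℝ) (E E' : ℝ), |E - E'| ≤
      Real.exp (-(Θ / a)) - Real.exp (-((Θ + 1) / a)) →
      App x a L hh (primorial w) b η (Real.exp (-((Θ + 1) / a))) Φ E →
      App x a L hh (primorial w) b η (Real.exp (-(Θ / a))) Φ E' := by
    intro x Φ E E' h4 h5 A hA
    have h6 := h5 A hA
    have h7 : Av x a hh (primorial w) b (fun N => sm x a L hh A N * Φ N) - sv L A * E' =
        (Av x a hh (primorial w) b (fun N => sm x a L hh A N * Φ N) - sv L A * E) +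
        sv L A * (E - E') := by ring
    rw [h7]
    refine (abs_add_le _ _).trans ?_
    rw [abs_mul, abs_of_nonneg (sv_nonneg L A)]
    have h8 : sv L A * |E - E'| ≤ 1 * |E - E'| :=
      mul_le_mul_of_nonneg_right (sv_le_one L A) (abs_nonneg _)
    linarith
  filter_upwards [h3, e1, e2] with x h3 e1 e2 haa
  obtain ⟨h4, h5⟩ := h3 haa
  exact ⟨fun j => conv x _ _ _ e1 (h4 j), fun j j' hjj => conv x _ _ _ e2 (h5 j j' hjj)⟩

theorem pair_law_mono (η η' Θ a0 : ℝ) (F : ℝ → ℕ → ℝ) (EF : ℝ → ℝ) (hηη : η' ≤ η)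
    (h : PairLaw η Θ a0 F EF) : PairLaw η' Θ a0 F EF := by
  obtain ⟨c0, hc0, h⟩ := h
  refine ⟨c0, hc0, ?_⟩
  intro ι _ _ _ a L ha haL hKa hh hinj
  obtain ⟨w0, hw0⟩ := h ι a L ha haL hKa hh hinj
  refine ⟨w0, fun w hw b hb => ?_⟩
  filter_upwards [hw0 w hw b hb] with x h3 haa
  obtain ⟨h4, h5⟩ := h3 haa
  exact ⟨fun j A hA => h4 j A (hA.trans hηη), fun j j' hjj A hA => h5 j j' hjj A (hA.trans hηη)⟩

/-- **(L3) for the `P_2` weight** -/
theorem pair_law_p2 (η Θ a0 δ : ℝ) (hη1 : η ≤ 1 / 2000) (hΘ : 0 < Θ) (ha0 : 0 < a0)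
    (ha1 : a0 ≤ 1 / 20) (hδ : 0 < δ) (W : List (ℝ × List ℕ × List ℕ)) (hW : Okw δ a0 W) :
    PairLaw (η / 1000) Θ a0 (fun x n => ev2 W (kk x δ n)) (fun _ => mv2 W mu) := by
  apply pair_law_mono (1 / 2000 / 1000) (η / 1000) Θ a0 _ _ (by linarith)
  have hpos : ∀ w ∈ W, ∀ j ∈ w.2.1 ++ w.2.2, 0 < j := by
    intro w hw j hj
    have h3 := hW.1 w hw j hj
    rcases Nat.eq_zero_or_pos j with h4 | h4
    · rw [h4, Nat.cast_zero, zero_mul] at h3
      linarith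
    · exact h4
  have hms0 : ∀ x j, 0 ≤ ms x δ j := by
    intro x j
    unfold ms
    positivity
  have hmvab : ∀ x, mv2 (ab W) (ms x δ) = mva2 W (ms x δ) := by
    intro x
    unfold mv2 mva2 ab
    rw [List.map_map]
    rfl
  have hbd : ∀ᶠ x : ℝ in atTop, mv2 (ab W) (ms x δ) ≤ |mva2 W mu| + 1 := by
    have h3 := (Metric.tendsto_nhds.1 (mva2_tendsto δ hδ W hpos)) 1 one_pos
    filter_upwards [h3] with x h3
    rw [hmvab]
    rw [Real.dist_eq] at h3
    have := (abs_lt.1 h3).2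
    have := le_abs_self (mva2 W mu)
    linarith
  have key : PairLaw (1 / 2000 / 1000) (Θ + 1) a0 (fun x n => ev2 W (kk x δ n))
      (fun x => mv2 W (ms x δ)) := by
    obtain ⟨m, hm⟩ := ev2_poly δ (ab W)
    apply pair_law_of (1 / 2000) (Θ + 1) (|mva2 W mu| + 1) a0 (by norm_num) le_rfl (by linarith)
      (by have := abs_nonneg (mva2 W mu); linarith) ha0 ha1 _
      (fun x n => ev2 (ab W) (kk x δ n)) _ (fun x => mv2 (ab W) (ms x δ))
    · intro x n
      exact ev2_abs W _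
    · filter_upwards [hbd] with x hbd
      exact ⟨mv2_ab W _ (hms0 x), hbd⟩
    · intro h
      exact ev2_one δ a0 hδ ha0 (by linarith) W hW h
    · intro h
      exact ev2_one δ a0 hδ ha0 (by linarith) (ab W) (okw_ab δ a0 W hW) h
    · intro h h' hne
      exact intd_congr (ev2_int δ a0 hδ ha0 (by linarith) W W hW hW h h' hne) (fun _ _ _ => rfl)
        (fun x => by ring)
    · intro h h' hne
      exact intd_congr (ev2_int δ a0 hδ ha0 (by linarith) (ab W) (ab W) (okw_ab δ a0 W hW)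
        (okw_ab δ a0 W hW) h h' hne) (fun _ _ _ => rfl) (fun x => by ring)
    · refine ⟨m, ?_⟩
      filter_upwards [hm] with x hm n hn hn2
      exact (le_abs_self _).trans (hm n hn hn2)
  exact pair_law_const _ _ _ _ _ _ key (mv2_tendsto δ hδ W hpos)

/-- **(L3) for functions of divisor type** (Selberg squares, weights of stage 1) -/
theorem pair_law_div (η Θ a0 κ C : ℝ) (hη : 0 < η) (hη1 : η ≤ 1 / 2000) (hΘ : 0 < Θ)
    (ha0 : 0 < a0) (ha1 : a0 ≤ 1 / 20) (hκ : η ≤ κ) (hκ1 : κ ≤ 1 / 2) (c : ℝ → ℕ → ℝ) (hc : DivT a0 κ C c)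
    (hsq : ∀ᶠ x : ℝ in atTop, ∀ m : ℕ, c x m ≠ 0 → Squarefree m) :
    PairLaw (η / 1000) Θ a0 (dv c) (dm c) := by
  obtain ⟨C', hC', hdm⟩ := dmb a0 κ C ha0 (by linarith) (by linarith) c hc hsq
  have hc' : DivT a0 κ C (fun x m => |c x m|) := by
    unfold DivT at hc ⊢
    filter_upwards [hc] with x hc m
    rw [abs_abs]
    refine ⟨(hc m).1, fun h3 => (hc m).2 ?_⟩
    rwa [Ne, abs_eq_zero] at h3
  apply pair_law_of η Θ C' a0 hη hη1 hΘ hC' ha0 ha1 _ (dv (fun x m => |c x m|)) _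
    (dm (fun x m => |c x m|))
  · intro x n
    unfold dv
    exact abs_sum_le_sum_abs _ _
  · filter_upwards [hdm] with x hdm
    constructor
    · unfold dm
      refine (abs_sum_le_sum_abs _ _).trans (le_of_eq ?_)
      apply sum_congr rfl
      intro m _
      rw [abs_div, Nat.abs_cast]
    · exact hdm
  · intro h
    exact evt_one η a0 κ C hη hκ hκ1 ha0 (by linarith) c hc h
  · intro h
    exact evt_one η a0 κ C hη hκ hκ1 ha0 (by linarith) _ hc' h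
  · intro h h' hne
    exact intd_congr (evt_int η a0 κ C C hη hκ hκ1 ha0 (by linarith) c c hc hc
      h h' hne) (fun _ _ _ => rfl) (fun x => by ring)
  · intro h h' hne
    exact intd_congr (evt_int η a0 κ C C hη hκ hκ1 ha0 (by linarith) _ _ hc'
      hc' h h' hne) (fun _ _ _ => rfl) (fun x => by ring)
  · refine ⟨3, ?_⟩
    filter_upwards [dv_poly a0 κ C _ hc'] with x h3 n hn hn2
    exact (le_abs_self _).trans (h3 n hn hn2)

end Pool.Agent.H11.RG
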