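import Pool.Agent.H11.RG.Int
import Pool.Agent.H11.PT.GwL
import Pool.Agent.H21.SH.Gx

/-!
# [H11 RG GWT] From intervals to the weight `gw` on the window `Tx`

Proof of `intd_gw`.  Let `c, θ, C` be the constants of `h`, `θ' = min θ (1/2000)`, `Y = ⌊x^(1+θ')⌋₊`
(`⌊√x⌋₊ ≤ ⌊x⌋₊ ≤ Y`, `Ioc ⌊√x⌋₊ Y ⊆ Tx x`).
* Main part: `gw_layer` (H11/PT/GwL) with `F N = if N % q0 = r % q0 then Φ x N else 0`, `A = E x / q0`,
  `E = C (x^(1-c)/q0 + x^(1-η/128))` gives the sum over `Ioc ⌊√x⌋₊ Y` up to `2 C (..)`.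
* Tail: `N ∈ Tx x`, `N > Y`: `N > x^(1+θ')`, so `log (N/x) ≥ θ' log x` and `gw x N ≤ exp(-(θ' log x)^2/2)`; the number of
  these `N` is `≤ x^2`, so the tails of `∑ gw Φ` and of `(∑ gw) E/q0` are together at most
  `x^2 exp(-(θ' log x)^2/2) (x^m + C0) ≤ 1` for `x` large (lemma `tail_gw`), and `1 ≤ x^(1-η/128)`.
So the total error is `≤ (2 C + 1)(x^(1-c)/q0 + x^(1-η/128))`.
`tail_gw`: `x^2 exp(-(θ log x)^2/2) (x^m + C0) = exp(2 log x - θ^2 (log x)^2/2) (..) → 0`.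
`mass_big`: `N ∈ (⌊x/2⌋, ⌊x⌋] ⊆ Tx x` (`x` large) have `gw x N ≥ exp(-(log 2)^2/2) ≥ 1/2` and there are `≥ x/2 - 1 ≥ x/4` of
them (for `N > ⌊x/2⌋`: `N ≥ x/2`, `|log (N/x)| ≤ log 2`).
-/

namespace Pool.Agent.H11.RG

open Finset Filter Pool.Agent.H21.MT Pool.Agent.H92.MM

theorem tail_gw (θ C0 : ℝ) (m : ℕ) (hθ : 0 < θ) :
    ∀ᶠ x : ℝ in atTop, x ^ 2 * Real.exp (-(θ * Real.log x) ^ 2 / 2) * (x ^ m + C0) ≤ 1 := by
  have hlog := Real.tendsto_log_atTop.eventually_ge_atTop (2 * (m + 3) / θ ^ 2)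
  filter_upwards [hlog, eventually_ge_atTop (1 : ℝ), eventually_ge_atTop (1 + |C0|)] with x h1 h2 h3
  have hx0 : 0 < x := by linarith
  have hxm : 1 ≤ x ^ m := one_le_pow₀ h2
  have hl : 0 ≤ Real.log x := Real.log_nonneg h2
  have h4 : x ^ m + C0 ≤ x ^ (m + 1) := by
    have h5 : x ^ m * (1 + |C0|) ≤ x ^ m * x := mul_le_mul_of_nonneg_left h3 (by positivity)
    have h6 : |C0| ≤ x ^ m * |C0| := le_mul_of_one_le_left (abs_nonneg _) hxm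
    have h7 := le_abs_self C0
    rw [pow_succ]
    linarith
  have h5 : x ^ 2 * Real.exp (-(θ * Real.log x) ^ 2 / 2) * (x ^ m + C0) ≤
      x ^ 2 * Real.exp (-(θ * Real.log x) ^ 2 / 2) * x ^ (m + 1) :=
    mul_le_mul_of_nonneg_left h4 (by positivity)
  refine h5.trans ?_
  have h6 : x ^ 2 * Real.exp (-(θ * Real.log x) ^ 2 / 2) * x ^ (m + 1) =
      Real.exp (Real.log x * (m + 3) - (θ * Real.log x) ^ 2 / 2) := by
    have h7 : x ^ (m + 3) = Real.exp (Real.log x * (m + 3)) := by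
      rw [Real.exp_mul, Real.exp_log hx0]
      exact_mod_cast (Real.rpow_natCast x (m + 3)).symm
    rw [sub_eq_add_neg, Real.exp_add, ← h7]
    have h8 : -(θ * Real.log x) ^ 2 / 2 = -((θ * Real.log x) ^ 2 / 2) := by ring
    rw [h8]
    ring
  rw [h6, Real.exp_le_one_iff]
  rw [div_le_iff₀ (by positivity)] at h1
  nlinarith [mul_le_mul_of_nonneg_left h1 hl]

theorem mass_big : ∀ᶠ x : ℝ in atTop, x / 8 ≤ mass x := by
  filter_upwards [eventually_ge_atTop (4 : ℝ)] with x hx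
  have hx0 : 0 < x := by linarith
  have hsub : Ioc ⌊x / 2⌋₊ ⌊x⌋₊ ⊆ Tx x := by
    unfold Tx
    apply Ioc_subset_Ioc
    · apply Nat.floor_le_floor
      rw [Real.sqrt_le_left (by positivity)]
      nlinarith
    · apply Nat.floor_le_floor
      exact Real.self_le_rpow_of_one_le (by linarith) (by norm_num)
  have h1 : ∑ N ∈ Ioc ⌊x / 2⌋₊ ⌊x⌋₊, (1 / 2 : ℝ) ≤ ∑ N ∈ Ioc ⌊x / 2⌋₊ ⌊x⌋₊, gw x N := by
    refine sum_le_sum fun N hN => ?_
    obtain ⟨ha, hb⟩ := mem_Ioc.1 hN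
    have ha' : x / 2 < N := (Nat.floor_lt (by positivity)).1 ha
    have hb' : (N : ℝ) ≤ x := (Nat.le_floor_iff hx0.le).1 hb
    have hN0 : (0 : ℝ) < N := by linarith
    have h2 : Real.log ((N : ℝ) / x) ≤ 0 := Real.log_nonpos (by positivity) ((div_le_one hx0).2 hb')
    have h3 : -Real.log 2 ≤ Real.log ((N : ℝ) / x) := by
      rw [← Real.log_inv]
      apply Real.log_le_log (by norm_num)
      rw [le_div_iff₀ hx0]
      linarith
    have h4 := Real.log_two_lt_d9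
    unfold gw
    have h5 : -(Real.log ((N : ℝ) / x)) ^ 2 / 2 ≥ -(1 / 2) := by nlinarith
    have h6 := Real.add_one_le_exp (-(Real.log ((N : ℝ) / x)) ^ 2 / 2)
    linarith
  rw [sum_const, Nat.card_Ioc, nsmul_eq_mul] at h1
  have h2 : ∑ N ∈ Ioc ⌊x / 2⌋₊ ⌊x⌋₊, gw x N ≤ mass x :=
    sum_le_sum_of_subset_of_nonneg hsub fun N _ _ => (gw_pos x N).le
  have h3 : ⌊x / 2⌋₊ ≤ ⌊x⌋₊ := Nat.floor_le_floor (by linarith)
  rw [Nat.cast_sub h3] at h1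
  have h4 := Nat.floor_le (show 0 ≤ x / 2 by positivity)
  have h5 := Nat.lt_floor_add_one x
  linarith

theorem intd_gw (η a0 : ℝ) (hη : 0 < η) (hη1 : η ≤ 1) (Φ : ℝ → ℕ → ℝ) (E : ℝ → ℝ)
    (h : IntD η a0 Φ E) (m : ℕ) (C0 : ℝ) (hΦ : ∀ᶠ x : ℝ in atTop, ∀ N ∈ Tx x, |Φ x N| ≤ x ^ m)
    (hE : ∀ᶠ x : ℝ in atTop, |E x| ≤ C0) :
    ∃ c C : ℝ, 0 < c ∧ 0 < C ∧ ∀ᶠ x : ℝ in atTop,
      Dist (Tx x) (fun N => gw x N * Φ x N) (mass x * E x) (x ^ (η / 64)) (x ^ a0)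
        (C * x ^ (1 - c)) (C * x ^ (1 - η / 128)) := by
  obtain ⟨c, θ, C, hc, hθ, hC, h⟩ := h
  set θ' : ℝ := min θ (1 / 2000) with hθ'
  have hθ'0 : 0 < θ' := lt_min hθ (by norm_num)
  have hθ'1 : θ' ≤ θ := min_le_left _ _
  have hθ'2 : θ' ≤ 1 / 2000 := min_le_right _ _
  refine ⟨c, 2 * C + 1, hc, by positivity, ?_⟩
  filter_upwards [h, tail_gw θ' C0 m hθ'0, hΦ, hE, eventually_ge_atTop (1 : ℝ)] with x h htail hΦ
    hE hx q r hq hqQ hqp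
  have hx0 : 0 < x := by linarith
  have hq0 : (0 : ℝ) < q := by exact_mod_cast hq
  have hq1 : (1 : ℝ) ≤ q := by exact_mod_cast hq
  set Y0 : ℕ := ⌊Real.sqrt x⌋₊ with hY0
  set Y : ℕ := ⌊x ^ (1 + θ')⌋₊ with hYdef
  set Z : ℕ := ⌊x ^ (1 + 1 / 2000 : ℝ)⌋₊ with hZ
  have hTx : Tx x = Ioc Y0 Z := rfl
  have h0 : Y0 ≤ ⌊x⌋₊ := by
    apply Nat.floor_le_floor
    rw [Real.sqrt_le_left hx0.le]
    nlinarith
  have hY : ⌊x⌋₊ ≤ Y := Nat.floor_le_floor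
    (Real.self_le_rpow_of_one_le hx (by linarith))
  have hYZ : Y ≤ Z := Nat.floor_le_floor
    (Real.rpow_le_rpow_of_exponent_le hx (by linarith))
  have hYx : (Y : ℝ) ≤ x ^ (1 + θ') := Nat.floor_le (by positivity)
  have hZx : (Z : ℝ) ≤ x ^ 2 := by
    refine (Nat.floor_le (by positivity)).trans ?_
    rw [← Real.rpow_natCast x 2]
    exact Real.rpow_le_rpow_of_exponent_le hx (by norm_num)
  set F : ℕ → ℝ := fun N => if N % q = r % q then Φ x N else 0 with hF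
  have hFfil : ∀ X1 X2 : ℕ, ∑ N ∈ Ioc X1 X2, F N =
      ∑ N ∈ (Ioc X1 X2).filter (fun N => N % q = r % q), Φ x N := by
    intro X1 X2
    rw [Finset.sum_filter]
  set e : ℝ := C * (x ^ (1 - c) / q + x ^ (1 - η / 128)) with he
  have hlay := Pool.Agent.H11.PT.gw_layer hx F Y0 Y h0 hY (E x / q) e (by
    intro X1 X2 _ h12 h2Y
    have h1 := h X1 X2 q r h12 (by
      have h3 : (X2 : ℝ) ≤ Y := by exact_mod_cast h2Y
      exact (h3.trans hYx).trans (Real.rpow_le_rpow_of_exponent_le hx (by linarith))) hq hqQ hqp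
    rw [hFfil]
    have h3 : ((X2 : ℝ) - X1) / q * E x = E x / q * ((X2 : ℝ) - X1) := by ring
    rw [← h3]
    exact h1)
  have hsplit : ∀ G : ℕ → ℝ, ∑ N ∈ Tx x, G N = ∑ N ∈ Ioc Y0 Y, G N + ∑ N ∈ Ioc Y Z, G N := by
    intro G
    rw [hTx, Finset.sum_Ioc_consecutive G (h0.trans hY) hYZ]
  have hmain : ∑ N ∈ (Tx x).filter (fun N => N % q = r % q), gw x N * Φ x N =
      ∑ N ∈ Ioc Y0 Y, gw x N * F N + ∑ N ∈ Ioc Y Z, gw x N * F N := by
    rw [← hsplit, Finset.sum_filter]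
    refine Finset.sum_congr rfl fun N _ => ?_
    simp only [hF]
    split_ifs <;> ring
  have hmass : mass x = ∑ N ∈ Ioc Y0 Y, gw x N + ∑ N ∈ Ioc Y Z, gw x N := hsplit _
  set w : ℝ := Real.exp (-(θ' * Real.log x) ^ 2 / 2) with hw
  have hgw : ∀ N ∈ Ioc Y Z, gw x N ≤ w := by
    intro N hN
    have h1 : x ^ (1 + θ') < N := Nat.lt_of_floor_lt (mem_Ioc.1 hN).1
    have hl : 0 ≤ Real.log x := Real.log_nonneg hx
    have h2 : θ' * Real.log x ≤ Real.log ((N : ℝ) / x) := by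
      rw [← Real.log_rpow hx0]
      apply Real.log_le_log (by positivity)
      rw [le_div_iff₀ hx0]
      have h3 : x ^ (1 + θ') = x ^ θ' * x := by
        rw [add_comm, Real.rpow_add hx0, Real.rpow_one]
      rw [← h3]
      exact h1.le
    unfold gw
    rw [hw]
    apply Real.exp_le_exp.2
    have h3 : 0 ≤ θ' * Real.log x := mul_nonneg hθ'0.le hl
    have h4 : (θ' * Real.log x) ^ 2 ≤ (Real.log ((N : ℝ) / x)) ^ 2 := pow_le_pow_left₀ h3 h2 2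
    linarith
  have hw0 : 0 < w := Real.exp_pos _
  have hcard : (((Ioc Y Z).card : ℕ) : ℝ) ≤ x ^ 2 := by
    rw [Nat.card_Ioc]
    have h1 : ((Z - Y : ℕ) : ℝ) ≤ Z := by exact_mod_cast Nat.sub_le Z Y
    exact h1.trans hZx
  have hT1 : |∑ N ∈ Ioc Y Z, gw x N * F N| ≤ x ^ 2 * w * x ^ m := by
    refine (Finset.abs_sum_le_sum_abs _ _).trans ?_
    have h1 : ∀ N ∈ Ioc Y Z, |gw x N * F N| ≤ w * x ^ m := by
      intro N hN
      rw [abs_mul, abs_of_pos (gw_pos x N)]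
      refine mul_le_mul (hgw N hN) ?_ (abs_nonneg _) hw0.le
      simp only [hF]
      split_ifs
      · refine hΦ N ?_
        rw [hTx, mem_Ioc]
        exact ⟨lt_of_le_of_lt (h0.trans hY) (mem_Ioc.1 hN).1, (mem_Ioc.1 hN).2⟩
      · rw [abs_zero]
        positivity
    refine (Finset.sum_le_card_nsmul _ _ _ h1).trans ?_
    rw [nsmul_eq_mul]
    calc (((Ioc Y Z).card : ℕ) : ℝ) * (w * x ^ m) ≤ x ^ 2 * (w * x ^ m) :=
          mul_le_mul_of_nonneg_right hcard (by positivity)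
      _ = x ^ 2 * w * x ^ m := by ring
  have hT2 : |E x / q * ∑ N ∈ Ioc Y Z, gw x N| ≤ x ^ 2 * w * C0 := by
    have h1 : ∑ N ∈ Ioc Y Z, gw x N ≤ x ^ 2 * w := by
      refine (Finset.sum_le_card_nsmul _ _ _ hgw).trans ?_
      rw [nsmul_eq_mul]
      exact mul_le_mul_of_nonneg_right hcard hw0.le
    have h2 : 0 ≤ ∑ N ∈ Ioc Y Z, gw x N := Finset.sum_nonneg fun N _ => (gw_pos x N).le
    rw [abs_mul, abs_of_nonneg h2, abs_div, abs_of_pos hq0]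
    have h3 : |E x| / q ≤ C0 := (div_le_self (abs_nonneg _) hq1).trans hE
    have h4 : 0 ≤ |E x| / q := by positivity
    calc |E x| / q * ∑ N ∈ Ioc Y Z, gw x N ≤ |E x| / q * (x ^ 2 * w) :=
          mul_le_mul_of_nonneg_left h1 h4
      _ ≤ C0 * (x ^ 2 * w) := mul_le_mul_of_nonneg_right h3 (by positivity)
      _ = x ^ 2 * w * C0 := by ring
  have hone : (1 : ℝ) ≤ x ^ (1 - η / 128) := Real.one_le_rpow hx (by linarith)
  rw [hmain]
  have hdec : ∑ N ∈ Ioc Y0 Y, gw x N * F N + ∑ N ∈ Ioc Y Z, gw x N * F N - mass x * E x / q =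
      (∑ N ∈ Ioc Y0 Y, gw x N * F N - E x / q * ∑ N ∈ Ioc Y0 Y, gw x N) +
      (∑ N ∈ Ioc Y Z, gw x N * F N - E x / q * ∑ N ∈ Ioc Y Z, gw x N) := by
    rw [hmass]
    ring
  rw [hdec]
  have h5 := abs_add_le (∑ N ∈ Ioc Y0 Y, gw x N * F N - E x / q * ∑ N ∈ Ioc Y0 Y, gw x N)
    (∑ N ∈ Ioc Y Z, gw x N * F N - E x / q * ∑ N ∈ Ioc Y Z, gw x N)
  have h6 := abs_sub (∑ N ∈ Ioc Y Z, gw x N * F N) (E x / q * ∑ N ∈ Ioc Y Z, gw x N)
  have h7 : x ^ 2 * w * (x ^ m + C0) ≤ 1 := htail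
  have h8 : (2 * C + 1) * x ^ (1 - c) / q = (2 * C + 1) * (x ^ (1 - c) / q) := by ring
  have h9 : 0 ≤ x ^ (1 - c) / q := by positivity
  rw [h8]
  nlinarith

end Pool.Agent.H11.RG
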