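import Pool.Agent.H11.RG.Rg
import Pool.Agent.H92.MM.Def

/-!
# [H11 RG INT] Distribution of a function on intervals; closure under linear combinations

`IntD η a0 Φ E`: uniformly in the interval `(X1, X2]` (`X2 ≤ x^(1+θ)`), the residue class `r` and the modulus
`q0 ≤ x^(η/64)` all of whose primes are `< x^a0`, the sum of `Φ x` is `(X2-X1)/q0 E x` up to
`C (x^(1-c)/q0 + x^(1-η/128))`.

Proofs.  `intd_add`: take `c = min c1 c2`, `θ = min θ1 θ2`, `C = C1 + C2` (`x ≥ 1`: `x^(1-c1) ≤ x^(1-c)`,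
`x^(1+θ) ≤ x^(1+θ1)`).  `intd_smul`: the same `c, θ`, constant `C |s| + 1`.  `intd_zero`: the sum is `0`.
`intd_list`: induction on the list, `intd_zero`, `intd_smul`, `intd_add`.  `intd_congr`: rewrite (all `N` in the sum
are `> 0`; `E` may be changed pointwise).
-/

namespace Pool.Agent.H11.RG

open Finset Filter

/-- distribution on intervals -/
def IntD (η a0 : ℝ) (Φ : ℝ → ℕ → ℝ) (E : ℝ → ℝ) : Prop :=
  ∃ c θ C : ℝ, 0 < c ∧ 0 < θ ∧ 0 < C ∧ ∀ᶠ x : ℝ in atTop, ∀ (X1 X2 q0 r : ℕ), X1 ≤ X2 →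
    (X2 : ℝ) ≤ x ^ (1 + θ) → 0 < q0 → (q0 : ℝ) ≤ x ^ (η / 64) →
    (∀ p : ℕ, p.Prime → p ∣ q0 → (p : ℝ) < x ^ a0) →
    |∑ N ∈ (Ioc X1 X2).filter (fun N => N % q0 = r % q0), Φ x N -
      ((X2 : ℝ) - X1) / q0 * E x| ≤ C * (x ^ (1 - c) / q0 + x ^ (1 - η / 128))

theorem intd_congr {η a0 : ℝ} {Φ Φ' : ℝ → ℕ → ℝ} {E E' : ℝ → ℝ} (h : IntD η a0 Φ E)
    (h1 : ∀ x N, 0 < N → Φ x N = Φ' x N) (h2 : ∀ x, E x = E' x) : IntD η a0 Φ' E' := by
  obtain ⟨c, θ, C, hc, hθ, hC, h3⟩ := h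
  refine ⟨c, θ, C, hc, hθ, hC, ?_⟩
  filter_upwards [h3] with x h3 X1 X2 q0 r h4 h5 h6 h7 h8
  have h9 := h3 X1 X2 q0 r h4 h5 h6 h7 h8
  rw [← h2 x]
  have h10 : ∑ N ∈ (Ioc X1 X2).filter (fun N => N % q0 = r % q0), Φ' x N =
      ∑ N ∈ (Ioc X1 X2).filter (fun N => N % q0 = r % q0), Φ x N := by
    apply sum_congr rfl
    intro N hN
    rw [mem_filter, mem_Ioc] at hN
    exact (h1 x N (by omega)).symm
  rw [h10]
  exact h9

theorem intd_zero (η a0 : ℝ) : IntD η a0 (fun _ _ => 0) (fun _ => 0) := by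
  refine ⟨1, 1, 1, one_pos, one_pos, one_pos, ?_⟩
  filter_upwards [eventually_ge_atTop (1 : ℝ)] with x hx X1 X2 q0 r _ _ _ _ _
  have hx0 : 0 < x := by linarith
  rw [sum_const_zero, mul_zero, sub_zero, abs_zero]
  positivity

theorem intd_add {η a0 : ℝ} {Φ Φ' : ℝ → ℕ → ℝ} {E E' : ℝ → ℝ} (h : IntD η a0 Φ E)
    (h' : IntD η a0 Φ' E') : IntD η a0 (fun x N => Φ x N + Φ' x N) (fun x => E x + E' x) := by
  obtain ⟨c, θ, C, hc, hθ, hC, h⟩ := h
  obtain ⟨c', θ', C', hc', hθ', hC', h'⟩ := h'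
  refine ⟨min c c', min θ θ', C + C', lt_min hc hc', lt_min hθ hθ', by positivity, ?_⟩
  filter_upwards [h, h', eventually_ge_atTop (1 : ℝ)] with x h h' hx X1 X2 q0 r h4 h5 h6 h7 h8
  have hx0 : 0 < x := by linarith
  have hq : (0 : ℝ) < q0 := by exact_mod_cast h6
  have g1 := h X1 X2 q0 r h4 (h5.trans (Real.rpow_le_rpow_of_exponent_le hx (by
    have := min_le_left θ θ'; linarith))) h6 h7 h8
  have g2 := h' X1 X2 q0 r h4 (h5.trans (Real.rpow_le_rpow_of_exponent_le hx (by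
    have := min_le_right θ θ'; linarith))) h6 h7 h8
  have p1 : x ^ (1 - c) ≤ x ^ (1 - min c c') := Real.rpow_le_rpow_of_exponent_le hx (by
    have := min_le_left c c'; linarith)
  have p2 : x ^ (1 - c') ≤ x ^ (1 - min c c') := Real.rpow_le_rpow_of_exponent_le hx (by
    have := min_le_right c c'; linarith)
  have q1 : x ^ (1 - c) / q0 ≤ x ^ (1 - min c c') / q0 := div_le_div_of_nonneg_right p1 hq.le
  have q2 : x ^ (1 - c') / q0 ≤ x ^ (1 - min c c') / q0 := div_le_div_of_nonneg_right p2 hq.le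
  have r1 := mul_le_mul_of_nonneg_left q1 hC.le
  have r2 := mul_le_mul_of_nonneg_left q2 hC'.le
  have e : ∑ N ∈ (Ioc X1 X2).filter (fun N => N % q0 = r % q0), (Φ x N + Φ' x N) -
      ((X2 : ℝ) - X1) / q0 * (E x + E' x) =
      (∑ N ∈ (Ioc X1 X2).filter (fun N => N % q0 = r % q0), Φ x N -
        ((X2 : ℝ) - X1) / q0 * E x) +
      (∑ N ∈ (Ioc X1 X2).filter (fun N => N % q0 = r % q0), Φ' x N -
        ((X2 : ℝ) - X1) / q0 * E' x) := by
    rw [sum_add_distrib]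
    ring
  rw [e]
  refine (abs_add_le _ _).trans ?_
  nlinarith

theorem intd_smul {η a0 : ℝ} {Φ : ℝ → ℕ → ℝ} {E : ℝ → ℝ} (s : ℝ) (h : IntD η a0 Φ E) :
    IntD η a0 (fun x N => s * Φ x N) (fun x => s * E x) := by
  obtain ⟨c, θ, C, hc, hθ, hC, h⟩ := h
  refine ⟨c, θ, |s| * C + 1, hc, hθ, by positivity, ?_⟩
  filter_upwards [h, eventually_ge_atTop (1 : ℝ)] with x h hx X1 X2 q0 r h4 h5 h6 h7 h8
  have hx0 : 0 < x := by linarith
  have g1 := h X1 X2 q0 r h4 h5 h6 h7 h8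
  have e : ∑ N ∈ (Ioc X1 X2).filter (fun N => N % q0 = r % q0), (s * Φ x N) -
      ((X2 : ℝ) - X1) / q0 * (s * E x) =
      s * (∑ N ∈ (Ioc X1 X2).filter (fun N => N % q0 = r % q0), Φ x N -
        ((X2 : ℝ) - X1) / q0 * E x) := by
    rw [← mul_sum]
    ring
  rw [e, abs_mul]
  have g2 := mul_le_mul_of_nonneg_left g1 (abs_nonneg s)
  have g3 : 0 ≤ x ^ (1 - c) / q0 + x ^ (1 - η / 128) := by positivity
  nlinarith

theorem intd_list {α : Type} {η a0 : ℝ} (l : List α) (s : α → ℝ) (Φ : α → ℝ → ℕ → ℝ)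
    (E : α → ℝ → ℝ) (h : ∀ i ∈ l, IntD η a0 (Φ i) (E i)) :
    IntD η a0 (fun x N => (l.map fun i => s i * Φ i x N).sum)
      (fun x => (l.map fun i => s i * E i x).sum) := by
  induction l with
  | nil =>
    simpa using intd_zero η a0
  | cons i l ih =>
    have h1 := intd_smul (s i) (h i (List.mem_cons_self ..))
    have h2 := ih fun j hj => h j (List.mem_cons_of_mem _ hj)
    simpa using intd_add h1 h2

end Pool.Agent.H11.RG
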