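import Pool.Agent.H95.FL.Sm

/-!
# [H11 RG RG] Rough numbers for signed weights with restricted moduli (proved)

`Dist T ω X Q z e1 e2`: the weight `ω` on `T` is distributed in all residue classes to moduli `q ≤ Q` all of whose
prime factors are `< z`, mass `X`, error `e1/q + e2`.  `rough_gen`, `poly_gen` are the theorems `rough_cnt`, `poly` of
`H95/FL/Sm.lean` in this generality (proofs adapted from there), for a signed weight `ω` dominated by `ω'`.
-/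

namespace Pool.Agent.H11.RG

open Finset Pool.Agent.H95.FL

/-- distribution in residue classes -/
def Dist (T : Finset ℕ) (ω : ℕ → ℝ) (X Q z e1 e2 : ℝ) : Prop :=
  ∀ q r : ℕ, 0 < q → (q : ℝ) ≤ Q → (∀ p : ℕ, p.Prime → p ∣ q → (p : ℝ) < z) →
    |∑ N ∈ T.filter (fun N => N % q = r % q), ω N - X / q| ≤ e1 / q + e2

theorem cnt_one_g {T : Finset ℕ} {ω : ℕ → ℝ} {X Q z e1 e2 : ℝ} (hT : Dist T ω X Q z e1 e2)
    (W b q r m c : ℕ) (hW : 0 < W) (hq : 0 < q) (hm : 0 < m)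
    (h1 : Nat.Coprime W q) (h2 : Nat.Coprime W m) (h3 : Nat.Coprime q m) (hc : c < m)
    (hQ : (W : ℝ) * q * m ≤ Q) (hz : ∀ p : ℕ, p.Prime → p ∣ W ∨ p ∣ q ∨ p ∣ m → (p : ℝ) < z) :
    |∑ N ∈ T.filter (fun N => N % W = b % W ∧ N % q = r % q ∧ N % m = c), ω N -
      X / (W * q * m)| ≤ e1 / (W * q * m) + e2 := by
  obtain ⟨z1, hz1, hz2⟩ := Nat.chineseRemainder h1 b r
  have h12 : Nat.Coprime (W * q) m := Nat.Coprime.mul_left h2 h3
  obtain ⟨z2, hz3, hz4⟩ := Nat.chineseRemainder h12 z1 c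
  have hcm : c % m = c := Nat.mod_eq_of_lt hc
  have hset : T.filter (fun N => N % W = b % W ∧ N % q = r % q ∧ N % m = c) =
      T.filter (fun N => N % (W * q * m) = z2 % (W * q * m)) := by
    apply filter_congr
    intro N _
    have hz2W : z2 ≡ b [MOD W] := (hz3.of_mul_right q).trans hz1
    have hz2q : z2 ≡ r [MOD q] := (hz3.of_mul_left W).trans hz2
    constructor
    · rintro ⟨ha, hb, hc'⟩
      have hNW : N ≡ z2 [MOD W] := Nat.ModEq.trans ha hz2W.symm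
      have hNq : N ≡ z2 [MOD q] := Nat.ModEq.trans hb hz2q.symm
      have hNm : N ≡ z2 [MOD m] := by
        have : N ≡ c [MOD m] := by
          unfold Nat.ModEq
          rw [hc', hcm]
        exact this.trans hz4.symm
      have h13 : N ≡ z2 [MOD (W * q)] := (Nat.modEq_and_modEq_iff_modEq_mul h1).1 ⟨hNW, hNq⟩
      exact (Nat.modEq_and_modEq_iff_modEq_mul h12).1 ⟨h13, hNm⟩
    · intro hN
      have h13 := (Nat.modEq_and_modEq_iff_modEq_mul h12).2 hN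
      have h14 := (Nat.modEq_and_modEq_iff_modEq_mul h1).2 h13.1
      refine ⟨h14.1.trans hz2W, h14.2.trans hz2q, ?_⟩
      have : N ≡ c [MOD m] := h13.2.trans hz4
      unfold Nat.ModEq at this
      rw [hcm] at this
      exact this
  rw [hset]
  have h := hT (W * q * m) z2 (by positivity) (by push_cast; exact hQ) (by
    intro p hp hpd
    apply hz p hp
    rcases (Nat.Prime.dvd_mul hp).1 hpd with h4 | h4
    · rcases (Nat.Prime.dvd_mul hp).1 h4 with h5 | h5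
      · exact Or.inl h5
      · exact Or.inr (Or.inl h5)
    · exact Or.inr (Or.inr h4))
  push_cast at h
  exact h

open Classical in
theorem cnt_g {T : Finset ℕ} {ω : ℕ → ℝ} {X Q z e1 e2 : ℝ} (hT : Dist T ω X Q z e1 e2)
    {I : Type} [Fintype I] [DecidableEq I] (h : I → ℕ) (W b q r : ℕ) (S : Finset ℕ)
    (hW : 0 < W) (hq : 0 < q) (h1 : Nat.Coprime W q)
    (hS : ∀ p ∈ S, p.Prime ∧ ¬ p ∣ W ∧ ¬ p ∣ q)
    (hd : ∀ p ∈ S, ∀ i j, i ≠ j → ¬ (p : ℤ) ∣ (h i : ℤ) - h j)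
    (hQ : (W : ℝ) * q * ∏ p ∈ S, (p : ℝ) ≤ Q)
    (hzW : ∀ p : ℕ, p.Prime → p ∣ W → (p : ℝ) < z) (hzq : ∀ p : ℕ, p.Prime → p ∣ q → (p : ℝ) < z)
    (hzS : ∀ p ∈ S, (p : ℝ) < z) :
    |∑ N ∈ T.filter (fun N => N % W = b % W ∧ N % q = r % q ∧ ∀ p ∈ S, ∃ i, p ∣ N + h i), ω N -
      (Fintype.card I : ℝ) ^ S.card * (X / (W * q * ∏ p ∈ S, (p : ℝ)))| ≤
      (Fintype.card I : ℝ) ^ S.card * (e1 / (W * q * ∏ p ∈ S, (p : ℝ)) + e2) := by
  obtain ⟨A, hA1, hA2, hA3⟩ := classes h S (fun p hp => (hS p hp).1) hd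
  set m : ℕ := ∏ p ∈ S, p with hm
  have hm0 : 0 < m := prod_pos fun p hp => (hS p hp).1.pos
  have h2 : Nat.Coprime W m := by
    rw [hm]
    apply Nat.Coprime.prod_right
    intro p hp
    exact ((Nat.Prime.coprime_iff_not_dvd (hS p hp).1).2 (hS p hp).2.1).symm
  have h3 : Nat.Coprime q m := by
    rw [hm]
    apply Nat.Coprime.prod_right
    intro p hp
    exact ((Nat.Prime.coprime_iff_not_dvd (hS p hp).1).2 (hS p hp).2.2).symm
  have hsum : ∑ N ∈ T.filter (fun N => N % W = b % W ∧ N % q = r % q ∧ ∀ p ∈ S, ∃ i, p ∣ N + h i), ω N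
      = ∑ c ∈ A, ∑ N ∈ T.filter (fun N => N % W = b % W ∧ N % q = r % q ∧ N % m = c), ω N := by
    rw [← sum_biUnion]
    · apply sum_congr _ fun _ _ => rfl
      ext N
      simp only [mem_filter, mem_biUnion]
      constructor
      · rintro ⟨hN, ha, hb, hc⟩
        exact ⟨N % m, (hA3 N).1 hc, hN, ha, hb, rfl⟩
      · rintro ⟨c, hc, hN, ha, hb, hc'⟩
        refine ⟨hN, ha, hb, (hA3 N).2 ?_⟩
        rw [hc']
        exact hc
    · intro c _ c' _ hcc
      rw [Function.onFun, Finset.disjoint_left]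
      intro N hN hN'
      rw [mem_filter] at hN hN'
      exact hcc (hN.2.2.2.symm.trans hN'.2.2.2)
  have hcast : ((m : ℕ) : ℝ) = ∏ p ∈ S, (p : ℝ) := by
    rw [hm]; push_cast; rfl
  have hcard : (Fintype.card I : ℝ) ^ S.card = (A.card : ℝ) := by
    rw [hA2]; push_cast; rfl
  rw [hsum, hcard, ← hcast]
  have hdiff : ∑ c ∈ A, ∑ N ∈ T.filter (fun N => N % W = b % W ∧ N % q = r % q ∧ N % m = c), ω N -
      (A.card : ℝ) * (X / (W * q * m)) =
      ∑ c ∈ A, (∑ N ∈ T.filter (fun N => N % W = b % W ∧ N % q = r % q ∧ N % m = c), ω N -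
        X / (W * q * m)) := by
    rw [sum_sub_distrib, sum_const, nsmul_eq_mul]
  rw [hdiff]
  calc |∑ c ∈ A, (∑ N ∈ T.filter (fun N => N % W = b % W ∧ N % q = r % q ∧ N % m = c), ω N -
        X / (W * q * m))|
      ≤ ∑ c ∈ A, |∑ N ∈ T.filter (fun N => N % W = b % W ∧ N % q = r % q ∧ N % m = c), ω N -
        X / (W * q * m)| := abs_sum_le_sum_abs _ _
    _ ≤ ∑ c ∈ A, (e1 / (W * q * m) + e2) := by
        apply sum_le_sum
        intro c hc
        apply cnt_one_g hT W b q r m c hW hq hm0 h1 h2 h3 (mem_range.1 (hA1 hc))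
        · rw [hcast]
          exact hQ
        · intro p hp hpd
          rcases hpd with h4 | h4 | h4
          · exact hzW p hp h4
          · exact hzq p hp h4
          · rw [hm, Prime.dvd_finsetProd_iff hp.prime] at h4
            obtain ⟨p', hp', hpp'⟩ := h4
            have h5 : p = p' := (Nat.prime_dvd_prime_iff_eq hp (hS p' hp').1).1 hpp'
            rw [h5]
            exact hzS p' hp'
    _ = _ := by rw [sum_const, nsmul_eq_mul]

open Classical in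
theorem sum_val_g {T : Finset ℕ} {ω : ℕ → ℝ} {X Q z e1 e2 : ℝ} (hT : Dist T ω X Q z e1 e2)
    {I : Type} [Fintype I] [DecidableEq I] (h : I → ℕ) (W b q r : ℕ) (P : Finset ℕ)
    (hW : 0 < W) (hq : 0 < q) (h1 : Nat.Coprime W q)
    (hP : ∀ p ∈ P, p.Prime ∧ ¬ p ∣ W ∧ ¬ p ∣ q)
    (hd : ∀ p ∈ P, ∀ i j, i ≠ j → ¬ (p : ℤ) ∣ (h i : ℤ) - h j)
    (hzW : ∀ p : ℕ, p.Prime → p ∣ W → (p : ℝ) < z) (hzq : ∀ p : ℕ, p.Prime → p ∣ q → (p : ℝ) < z)
    (hzP : ∀ p ∈ P, (p : ℝ) < z) (f : Finset ℕ → ℝ)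
    (hQ : ∀ S, f S ≠ 0 → (W : ℝ) * q * ∏ p ∈ S, (p : ℝ) ≤ Q) :
    |∑ N ∈ T.filter (fun N => N % W = b % W ∧ N % q = r % q), ω N * val f (DP h P N) -
      X / (W * q) * mean (fun p => (Fintype.card I : ℝ) / p) P f| ≤
      e1 / (W * q) * mean (fun p => (Fintype.card I : ℝ) / p) P (fun S => |f S|) +
      e2 * ∑ S ∈ P.powerset, |f S| * (Fintype.card I : ℝ) ^ S.card := by
  have hval : ∀ N : ℕ, val f (DP h P N) =
      ∑ S ∈ P.powerset, if (∀ p ∈ S, ∃ i, p ∣ N + h i) then f S else 0 := by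
    intro N
    unfold Pool.Agent.H95.FL.val
    rw [← sum_filter]
    apply sum_congr _ fun _ _ => rfl
    ext S
    simp only [mem_powerset, mem_filter]
    constructor
    · intro hS
      exact ⟨hS.trans (DP_subset h P N), fun p hp => ((mem_DP h P N p).1 (hS hp)).2⟩
    · rintro ⟨hS, hS2⟩ p hp
      exact (mem_DP h P N p).2 ⟨hS hp, hS2 p hp⟩
  have hsum : ∑ N ∈ T.filter (fun N => N % W = b % W ∧ N % q = r % q), ω N * val f (DP h P N) =
      ∑ S ∈ P.powerset, f S *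
        ∑ N ∈ T.filter (fun N => N % W = b % W ∧ N % q = r % q ∧ ∀ p ∈ S, ∃ i, p ∣ N + h i), ω N := by
    simp_rw [hval, mul_sum]
    rw [sum_comm]
    apply sum_congr rfl
    intro S _
    have h2 : T.filter (fun N => N % W = b % W ∧ N % q = r % q ∧ ∀ p ∈ S, ∃ i, p ∣ N + h i) =
        (T.filter (fun N => N % W = b % W ∧ N % q = r % q)).filter
          (fun N => ∀ p ∈ S, ∃ i, p ∣ N + h i) := by
      rw [filter_filter]
      apply filter_congr
      intro N _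
      simp only [and_assoc]
    rw [h2, sum_filter (fun N => ∀ p ∈ S, ∃ i, p ∣ N + h i)]
    apply sum_congr rfl
    intro N _
    split_ifs
    · ring
    · simp
  have hmean : ∀ (Z : ℝ) (f : Finset ℕ → ℝ),
      Z / (W * q) * mean (fun p => (Fintype.card I : ℝ) / p) P f =
      ∑ S ∈ P.powerset, f S *
        ((Fintype.card I : ℝ) ^ S.card * (Z / (W * q * ∏ p ∈ S, (p : ℝ)))) := by
    intro Z f
    unfold mean
    rw [mul_sum]
    apply sum_congr rfl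
    intro S _
    rw [prod_div_distrib, prod_const]
    ring
  rw [hsum, hmean, hmean, ← sum_sub_distrib, mul_sum, ← sum_add_distrib]
  refine (abs_sum_le_sum_abs _ _).trans (sum_le_sum ?_)
  intro S hS
  rw [mem_powerset] at hS
  rw [← mul_sub, abs_mul]
  by_cases hf : f S = 0
  · simp [hf]
  · have h5 := cnt_g hT h W b q r S hW hq h1 (fun p hp => hP p (hS hp)) (fun p hp => hd p (hS hp))
      (hQ S hf) hzW hzq (fun p hp => hzP p (hS hp))
    calc |f S| * |∑ N ∈ T.filter (fun N => N % W = b % W ∧ N % q = r % q ∧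
          ∀ p ∈ S, ∃ i, p ∣ N + h i), ω N -
          (Fintype.card I : ℝ) ^ S.card * (X / (W * q * ∏ p ∈ S, (p : ℝ)))|
        ≤ |f S| * ((Fintype.card I : ℝ) ^ S.card * (e1 / (W * q * ∏ p ∈ S, (p : ℝ)) + e2)) :=
          mul_le_mul_of_nonneg_left h5 (abs_nonneg _)
      _ = _ := by ring

/-- `mean g P |f| ≤ ∏ (1 + g)` if `|f| ≤ 1` -/
theorem mean_abs_le (g : ℕ → ℝ) (P : Finset ℕ) (hg : ∀ p ∈ P, 0 ≤ g p) (f : Finset ℕ → ℝ)
    (hf : ∀ S, |f S| ≤ 1) : mean g P (fun S => |f S|) ≤ ∏ p ∈ P, (1 + g p) := by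
  classical
  unfold mean
  have h1 : ∏ p ∈ P, (1 + g p) = ∑ S ∈ P.powerset, ∏ p ∈ S, g p := by
    rw [Finset.prod_one_add]
  rw [h1]
  apply sum_le_sum
  intro S hS
  rw [mem_powerset] at hS
  have h2 : 0 ≤ ∏ p ∈ S, g p := prod_nonneg fun p hp => hg p (hS hp)
  have := hf S
  nlinarith

open Classical in
theorem rough_gen {T : Finset ℕ} {ω ω' : ℕ → ℝ} {X X' Q z e1 e2 : ℝ}
    (hT : Dist T ω X Q z e1 e2) (hT' : Dist T ω' X' Q z e1 e2)
    (hω : ∀ N ∈ T, |ω N| ≤ ω' N) (hX : |X| ≤ X') (he1 : 0 ≤ e1) (he2 : 0 ≤ e2)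
    {I : Type} [Fintype I] [DecidableEq I] (h : I → ℕ) (W b q r : ℕ)
    (P : Finset ℕ) (hW : 0 < W) (hq : 0 < q) (h1 : Nat.Coprime W q)
    (hP : ∀ p ∈ P, p.Prime ∧ ¬ p ∣ W ∧ ¬ p ∣ q)
    (hd : ∀ p ∈ P, ∀ i j, i ≠ j → ¬ (p : ℤ) ∣ (h i : ℤ) - h j)
    (hzW : ∀ p : ℕ, p.Prime → p ∣ W → (p : ℝ) < z) (hzq : ∀ p : ℕ, p.Prime → p ∣ q → (p : ℝ) < z)
    (hzP : ∀ p ∈ P, (p : ℝ) < z)
    (Y d : ℝ) (fl fu : Finset ℕ → ℝ)
    (hs : Sand (Fintype.card I) (fun p => (Fintype.card I : ℝ) / p) P Y d fl fu)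
    (hQ : (W : ℝ) * q * Y ≤ Q) :
    |∑ N ∈ T.filter (fun N => N % W = b % W ∧ N % q = r % q ∧ DP h P N = ∅), ω N -
      X / (W * q) * vv (fun p => (Fintype.card I : ℝ) / p) P| ≤
      3 * (d * (X' / (W * q) * vv (fun p => (Fintype.card I : ℝ) / p) P)) +
      3 * (e1 / (W * q) * (∏ p ∈ P, (1 + (Fintype.card I : ℝ) / p)) + e2 * Y) := by
  have hDP : ∀ N, DP h P N ⊆ P := DP_subset h P
  set T1 := T.filter (fun N => N % W = b % W ∧ N % q = r % q) with hT1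
  have hset : T.filter (fun N => N % W = b % W ∧ N % q = r % q ∧ DP h P N = ∅) =
      T1.filter (fun N => DP h P N = ∅) := by
    rw [hT1, filter_filter]
    apply filter_congr
    intro N _
    simp only [and_assoc]
  have hval0 : ∀ f : Finset ℕ → ℝ, f ∅ = 1 → val f ∅ = 1 := by
    intro f hf
    simp [Pool.Agent.H95.FL.val, hf]
  have hW' : (0 : ℝ) < W := by exact_mod_cast hW
  have hq' : (0 : ℝ) < q := by exact_mod_cast hq
  have hWq : 0 < (W : ℝ) * q := by positivity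
  have hX'0 : 0 ≤ X' := (abs_nonneg X).trans hX
  -- levels
  have hQu : ∀ S, fu S ≠ 0 → (W : ℝ) * q * ∏ p ∈ S, (p : ℝ) ≤ Q := fun S hS =>
    (mul_le_mul_of_nonneg_left (hs.lev_u S hS) hWq.le).trans hQ
  have hQl : ∀ S, fl S ≠ 0 → (W : ℝ) * q * ∏ p ∈ S, (p : ℝ) ≤ Q := fun S hS =>
    (mul_le_mul_of_nonneg_left (hs.lev_l S hS) hWq.le).trans hQ
  have su := sum_val_g hT h W b q r P hW hq h1 hP hd hzW hzq hzP fu hQu
  have su' := sum_val_g hT' h W b q r P hW hq h1 hP hd hzW hzq hzP fu hQu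
  have sl' := sum_val_g hT' h W b q r P hW hq h1 hP hd hzW hzq hzP fl hQl
  rw [← hT1] at su su' sl'
  set g : ℕ → ℝ := fun p => (Fintype.card I : ℝ) / p with hg
  have hg0 : ∀ p ∈ P, 0 ≤ g p := fun p _ => by rw [hg]; positivity
  set U : ℝ := ∏ p ∈ P, (1 + (Fintype.card I : ℝ) / p) with hU
  have mu := mean_abs_le g P hg0 fu hs.abs_u
  have ml := mean_abs_le g P hg0 fl hs.abs_l
  have e1Wq : 0 ≤ e1 / (W * q) := by positivity
  have er : ∀ f : Finset ℕ → ℝ, mean g P (fun S => |f S|) ≤ U →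
      (∑ S ∈ P.powerset, |f S| * (Fintype.card I : ℝ) ^ S.card) ≤ Y →
      e1 / (W * q) * mean g P (fun S => |f S|) +
        e2 * ∑ S ∈ P.powerset, |f S| * (Fintype.card I : ℝ) ^ S.card ≤
      e1 / (W * q) * U + e2 * Y := by
    intro f hf1 hf2
    exact add_le_add (mul_le_mul_of_nonneg_left hf1 e1Wq) (mul_le_mul_of_nonneg_left hf2 he2)
  have eu := er fu mu hs.mass_u
  have el := er fl ml hs.mass_l
  set Er : ℝ := e1 / (W * q) * U + e2 * Y with hEr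
  -- pointwise
  have hpt : ∀ N ∈ T1, |ω N * val fu (DP h P N) - (if DP h P N = ∅ then ω N else 0)| ≤
      ω' N * val fu (DP h P N) - ω' N * val fl (DP h P N) := by
    intro N hN
    have hle := hω N (mem_filter.1 hN).1
    have h0 : 0 ≤ ω' N := (abs_nonneg _).trans hle
    split_ifs with h2
    · rw [h2, hval0 fu hs.empty_u, hval0 fl hs.empty_l]
      simp
    · have h3 := hs.val_l _ (hDP N) (nonempty_iff_ne_empty.2 h2)
      have h4 := hs.val_u _ (hDP N)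
      rw [sub_zero, abs_mul, abs_of_nonneg h4]
      nlinarith
  have hdiff : |∑ N ∈ T1, ω N * val fu (DP h P N) - ∑ N ∈ T1.filter (fun N => DP h P N = ∅), ω N| ≤
      ∑ N ∈ T1, ω' N * val fu (DP h P N) - ∑ N ∈ T1, ω' N * val fl (DP h P N) := by
    rw [sum_filter (fun N => DP h P N = ∅), ← sum_sub_distrib, ← sum_sub_distrib]
    exact (abs_sum_le_sum_abs _ _).trans (sum_le_sum hpt)
  rw [hset]
  have hXq : 0 ≤ X' / ((W : ℝ) * q) := by positivity
  have hXX : |X / ((W : ℝ) * q)| ≤ X' / (W * q) := by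
    rw [abs_div, abs_of_pos hWq]
    exact div_le_div_of_nonneg_right hX hWq.le
  have m1 := hs.mean_u
  have m2 := hs.mean_u'
  have m3 := hs.mean_l
  have m4 := hs.mean_l'
  set V : ℝ := vv g P with hV
  have hdV : 0 ≤ d * V := by nlinarith
  have hm5 : |X / ((W : ℝ) * q) * mean g P fu - X / (W * q) * V| ≤ X' / (W * q) * (d * V) := by
    rw [← mul_sub, abs_mul]
    apply mul_le_mul hXX _ (abs_nonneg _) hXq
    rw [abs_le]
    constructor <;> nlinarith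
  have hm6 : X' / ((W : ℝ) * q) * mean g P fu - X' / (W * q) * mean g P fl ≤
      X' / (W * q) * (2 * (d * V)) := by
    rw [← mul_sub]
    apply mul_le_mul_of_nonneg_left _ hXq
    nlinarith
  have a1 := abs_le.1 (su.trans eu)
  have a2 := abs_le.1 (su'.trans eu)
  have a3 := abs_le.1 (sl'.trans el)
  have a4 := abs_le.1 hdiff
  have a5 := abs_le.1 hm5
  have hfin : 3 * (d * (X' / (W * q) * V)) + 3 * Er =
      X' / (W * q) * (d * V) + X' / (W * q) * (2 * (d * V)) + 3 * Er := by ring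
  rw [hfin, abs_le]
  constructor
  · linarith [a1.1, a1.2, a2.1, a2.2, a3.1, a3.2, a4.1, a4.2, a5.1, a5.2]
  · linarith [a1.1, a1.2, a2.1, a2.2, a3.1, a3.2, a4.1, a4.2, a5.1, a5.2]

open Classical in
theorem poly_gen {T : Finset ℕ} {ω ω' : ℕ → ℝ} {X X' Q z e1 e2 : ℝ}
    (hT : Dist T ω X Q z e1 e2) (hT' : Dist T ω' X' Q z e1 e2)
    (hω : ∀ N ∈ T, |ω N| ≤ ω' N) (hX : |X| ≤ X') (he1 : 0 ≤ e1) (he2 : 0 ≤ e2)
    {I : Type} [Fintype I] [DecidableEq I] (h : I → ℕ) (W b : ℕ)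
    (P : Finset ℕ) (hW : 0 < W) (hP : ∀ p ∈ P, p.Prime ∧ ¬ p ∣ W)
    (hd : ∀ p ∈ P, ∀ i j, i ≠ j → ¬ (p : ℤ) ∣ (h i : ℤ) - h j)
    (hzW : ∀ p : ℕ, p.Prime → p ∣ W → (p : ℝ) < z) (hzP : ∀ p ∈ P, (p : ℝ) < z)
    (Y d : ℝ) (fl fu : Finset ℕ → ℝ)
    (hs : Sand (Fintype.card I) (fun p => (Fintype.card I : ℝ) / p) P Y d fl fu)
    {κ : Type} (A : Finset κ) (q r : κ → ℕ) (hq : ∀ k ∈ A, 0 < q k)
    (h1 : ∀ k ∈ A, Nat.Coprime W (q k)) (h2 : ∀ k ∈ A, ∀ p ∈ P, ¬ p ∣ q k)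
    (hzq : ∀ k ∈ A, ∀ p : ℕ, p.Prime → p ∣ q k → (p : ℝ) < z)
    (hQ : ∀ k ∈ A, (W : ℝ) * q k * Y ≤ Q) :
    |∑ N ∈ T.filter (fun N => N % W = b % W ∧ DP h P N = ∅),
        ω N * (∑ k ∈ A, if N % q k = r k % q k then (1 : ℝ) else 0) -
      X / W * vv (fun p => (Fintype.card I : ℝ) / p) P * ∑ k ∈ A, (1 : ℝ) / q k| ≤
      3 * (d * (X' / W * vv (fun p => (Fintype.card I : ℝ) / p) P)) * (∑ k ∈ A, (1 : ℝ) / q k) +
      3 * (e1 / W * (∏ p ∈ P, (1 + (Fintype.card I : ℝ) / p)) * (∑ k ∈ A, (1 : ℝ) / q k) +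
        e2 * Y * A.card) := by
  set V : ℝ := vv (fun p => (Fintype.card I : ℝ) / p) P with hV
  set U : ℝ := ∏ p ∈ P, (1 + (Fintype.card I : ℝ) / p) with hU
  have hsum : ∑ N ∈ T.filter (fun N => N % W = b % W ∧ DP h P N = ∅),
        ω N * (∑ k ∈ A, if N % q k = r k % q k then (1 : ℝ) else 0) =
      ∑ k ∈ A, ∑ N ∈ T.filter (fun N => N % W = b % W ∧ N % q k = r k % q k ∧ DP h P N = ∅),
        ω N := by
    simp_rw [mul_sum]
    rw [sum_comm]
    apply sum_congr rfl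
    intro k _
    have h3 : T.filter (fun N => N % W = b % W ∧ N % q k = r k % q k ∧ DP h P N = ∅) =
        (T.filter (fun N => N % W = b % W ∧ DP h P N = ∅)).filter
          (fun N => N % q k = r k % q k) := by
      rw [filter_filter]
      apply filter_congr
      intro N _
      tauto
    rw [h3, sum_filter (fun N => N % q k = r k % q k)]
    apply sum_congr rfl
    intro N _
    split_ifs
    · ring
    · simp
  have hR : X / W * V * ∑ k ∈ A, (1 : ℝ) / q k = ∑ k ∈ A, (X / (W * q k) * V) := by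
    rw [mul_sum]
    apply sum_congr rfl
    intro k _
    ring
  have hR2 : 3 * (d * (X' / W * V)) * (∑ k ∈ A, (1 : ℝ) / q k) +
      3 * (e1 / W * U * (∑ k ∈ A, (1 : ℝ) / q k) + e2 * Y * A.card) =
      ∑ k ∈ A, (3 * (d * (X' / (W * q k) * V)) + 3 * (e1 / (W * q k) * U + e2 * Y)) := by
    rw [sum_add_distrib, ← mul_sum, ← mul_sum, ← mul_sum, sum_add_distrib, sum_const, nsmul_eq_mul]
    have g1 : ∑ k ∈ A, X' / (W * q k) * V = X' / W * V * ∑ k ∈ A, (1 : ℝ) / q k := by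
      rw [mul_sum]
      apply sum_congr rfl
      intro k _
      ring
    have g2 : ∑ k ∈ A, e1 / (W * q k) * U = e1 / W * U * ∑ k ∈ A, (1 : ℝ) / q k := by
      rw [mul_sum]
      apply sum_congr rfl
      intro k _
      ring
    rw [g1, g2]
    ring
  rw [hsum, hR, hR2, ← sum_sub_distrib]
  refine (abs_sum_le_sum_abs _ _).trans (sum_le_sum ?_)
  intro k hk
  exact rough_gen hT hT' hω hX he1 he2 h W b (q k) (r k) P hW (hq k hk) (h1 k hk)
    (fun p hp => ⟨(hP p hp).1, (hP p hp).2, h2 k hk p hp⟩) hd hzW (hzq k hk) hzP Y d fl fu hs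
    (hQ k hk)

end Pool.Agent.H11.RG
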